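import Pool.Agent.Lib.MP_ae38e0_lc.Any.Main
import Pool.Agent.Lib.MP_ae38e0_lc.WindowOT

set_option autoImplicit false

/-!
# Key agreement and oblivious transfer with any number of rounds
-/

namespace Pool.Agent.LinOT

open Classical

variable {K : Type} [Field K] {Q M X Y RA RB σ : Type}

variable (L : Submodule K (Q → K)) [Fintype L] [Fintype RA] [Fintype RB]

/-- The numbers in the attack. -/
theorem any_numbers (n h c : ℕ) (hn : 0 < n) (hh : 26 ≤ h) (hc : 0 < c) :
    4 * n ≤ n ^ 2 * h ∧ 2 * (n ^ 2 * h) ≤ 64 * c * n ^ 7 * h ^ 6 ∧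
    8 * n ^ 3 * h ^ 2 * (2 * n * (64 * c * n ^ 7 * h ^ 6)) ≤ 1024 * n ^ 11 * c * h ^ 8 := by
  refine ⟨?_, ?_, ?_⟩
  · calc 4 * n ≤ h * n := Nat.mul_le_mul_right _ (by omega)
      _ = n ^ 1 * h := by ring
      _ ≤ n ^ 2 * h := by
        apply Nat.mul_le_mul_right
        exact Nat.pow_le_pow_right hn (by norm_num)
  · calc 2 * (n ^ 2 * h) = 2 * 1 * n ^ 2 * h ^ 1 := by ring
      _ ≤ 64 * c * n ^ 7 * h ^ 6 := by
        apply Nat.mul_le_mul
        · apply Nat.mul_le_mul
          · exact Nat.mul_le_mul (by norm_num) hc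
          · exact Nat.pow_le_pow_right hn (by norm_num)
        · exact Nat.pow_le_pow_right (by omega) (by norm_num)
  · apply le_of_eq
    ring

/-- **Key agreement** with any number of rounds. -/
theorem any_attack [Nonempty σ] [Nonempty RA] [Nonempty RB] (A : Party Q K M X)
    (B : Party Q K M Y) (iA : RA → A.St) (iB : RB → B.St) (outA : RA → A.St → Option σ)
    (outB : RB → B.St → σ) (m0 : M) (n nA nB h N : ℕ) (hab : nA ≤ n ∧ nB ≤ n) (hn : 0 < n)
    (hh : 0 < h)
    (hA : ∀ O ∈ L, ∀ (ra : RA) (l : List (M × M)), l.length = N →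
      (A.asked O (iA ra) l).length ≤ nA)
    (hB : ∀ O ∈ L, ∀ (rb : RB) (l : List (M × M)), l.length = N →
      (B.asked O (iB rb) l).length ≤ nB) :
    ∃ E : List (M × M) → Comp Q K σ,
      (∀ t O, ((E t).asked O).length ≤ 1024 * n ^ 11 * (nA + nB).choose nA * h ^ 8) ∧
      prob (fun w : RA × RB × L =>
        outA w.1 (exec A B w.2.2 N (iA w.1) (iB w.2.1) m0).2.1 =
        some (outB w.2.1 (exec A B w.2.2 N (iA w.1) (iB w.2.1) m0).2.2)) - 25 / h ≤
      prob (fun w : RA × RB × L =>
        (E (exec A B w.2.2 N (iA w.1) (iB w.2.1) m0).1).run w.2.2 =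
        outB w.2.1 (exec A B w.2.2 N (iA w.1) (iB w.2.1) m0).2.2) := by
  have hh' : (0 : ℝ) < h := by exact_mod_cast hh
  rcases Nat.lt_or_ge h 26 with h1 | h2
  · refine ⟨fun _ => .ret (Classical.arbitrary σ), fun t O => by simp, ?_⟩
    have a1 : ∀ p : RA × RB × L → Prop, prob p ≤ 1 := by
      intro p
      rw [prob_eq]
      apply div_le_one_of_le₀ _ (Nat.cast_nonneg _)
      exact_mod_cast Finset.card_le_univ _
    have a2 : ∀ p : RA × RB × L → Prop, 0 ≤ prob p := by
      intro p
      rw [prob_eq]
      positivity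
    have b1 := a1 (fun w : RA × RB × L =>
      outA w.1 (exec A B w.2.2 N (iA w.1) (iB w.2.1) m0).2.1 =
        some (outB w.2.1 (exec A B w.2.2 N (iA w.1) (iB w.2.1) m0).2.2))
    refine le_trans ?_ (a2 _)
    have h25 : (h : ℝ) ≤ 25 := by exact_mod_cast (by omega : h ≤ 25)
    have : (1 : ℝ) ≤ 25 / h := by
      rw [le_div_iff₀ hh']
      linarith
    linarith
  · have hr0 : 0 < (nA + nB).choose nA := Nat.choose_pos (by omega)
    obtain ⟨e1, e2, e3⟩ := any_numbers n h ((nA + nB).choose nA) hn h2 hr0
    set r : ℕ := (nA + nB).choose nA with hr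
    set k1 : ℕ := n ^ 2 * h with hk1
    set k2 : ℕ := 64 * r * n ^ 7 * h ^ 6 with hk2
    set T : ℕ := 8 * n ^ 3 * h ^ 2 with hT
    refine ⟨fun t => eveR L A B outB k1 k2 (2 * n * k2) t (Side.start iA) (Side.start iB) T [] m0,
      ?_, ?_⟩
    · intro t O
      exact (eveR_asked L A B outB k1 k2 (2 * n * k2) O t (Side.start iA) (Side.start iB) T []
        m0).trans e3
    · have hn' : (0 : ℝ) < n := by exact_mod_cast hn
      have hr' : (0 : ℝ) < r := by exact_mod_cast hr0
      have hβ : (8 * (r : ℝ) * n ^ 3 * h ^ 3) * n / (k2 : ℝ) +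
          (((nA + nB).choose nA : ℕ) : ℝ) / (8 * (r : ℝ) * n ^ 3 * h ^ 3) ≤
          1 / (4 * n ^ 3 * h ^ 3) := by
        rw [← hr, hk2]
        push_cast
        apply le_of_eq
        field_simp
        norm_num
      have hat := attack_any L A B outA outB n nA nB k1 k2 hab (8 * (r : ℝ) * n ^ 3 * h ^ 3)
        (by positivity) hn e1 e2 (1 / (4 * n ^ 3 * h ^ 3)) hβ N (Side.start iA) (Side.start iB) T
        [] m0 (start_loc iA) (start_loc iB)
        (fun ra O l hl => by
          simpa [Side.start] using asked_short A (O : Q → K) (iA ra) N nA m0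
            (fun l hl => hA O O.2 ra l hl) l hl)
        (fun rb O l hl => by
          simpa [Side.start] using asked_short B (O : Q → K) (iB rb) N nB m0
            (fun l hl => hB O O.2 rb l hl) l hl)
      have hcs : cs L orc (real L (Side.start iA) (Side.start iB)) [] = Finset.univ := by
        ext w
        simp [mem_cs, real, Side.start, Cons]
      have hnr : nr L (Side.start iA) (Side.start iB) [] = Fintype.card (RA × RB × L) := by
        unfold nr
        rw [hcs, Finset.card_univ]
      have hrho : rho L (Side.start iA) (Side.start iB) [] = Fintype.card (RA × RB × L) := by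
        unfold rho gr
        rw [hcs, Finset.filter_true_of_mem, Finset.card_univ]
        intro w _
        exact not_tch_nil L _ _
      obtain ⟨u, u1, u2, u3, u4⟩ := hat
      have p1 := pot_le L n (Side.start iA) (Side.start iB) []
      have p2 := qpot_le L n (Side.start iA) (Side.start iB) []
      unfold bnd at u4
      rw [hnr] at p1 p2 u2 u4
      rw [hrho, hcs] at u4
      set C : ℝ := (Fintype.card (RA × RB × L) : ℝ) with hC
      have hN : (0 : ℝ) < C := by
        have : Nonempty L := ⟨0⟩
        rw [hC]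
        exact_mod_cast Fintype.card_pos
      have v1 : u ≤ C / h := by
        have h3 : (T : ℝ) * u ≤ 4 * (k1 : ℝ) * (2 * n * C) :=
          u3.trans (mul_le_mul_of_nonneg_left p1 (by positivity))
        have h4 : (8 * (n : ℝ) ^ 3 * h) * (u * h) ≤ (8 * (n : ℝ) ^ 3 * h) * C := by
          calc (8 * (n : ℝ) ^ 3 * h) * (u * h) = (T : ℝ) * u := by
                rw [hT]; push_cast; ring
            _ ≤ 4 * (k1 : ℝ) * (2 * n * C) := h3
            _ = _ := by rw [hk1]; push_cast; ring
        rw [le_div_iff₀ hh']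
        exact le_of_mul_le_mul_left h4 (by positivity)
      have hη : (n : ℝ) / (k1 : ℝ) = 1 / (n * h) := by
        rw [hk1]; push_cast; field_simp
      have v2 : 4 * ((n : ℝ) / k1) * C ≤ 4 / h * C := by
        rw [hη]
        apply mul_le_mul_of_nonneg_right _ hN.le
        rw [mul_one_div, div_le_div_iff₀ (by positivity) hh']
        have : (1 : ℝ) ≤ n := by exact_mod_cast hn
        nlinarith
      have v3 : 8 * ((n : ℝ) / k1) * qpot L n (Side.start iA) (Side.start iB) [] ≤ 16 / h * C := by
        have h5 := mul_le_mul_of_nonneg_left p2 (by positivity : 0 ≤ 8 * ((n : ℝ) / k1))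
        refine h5.trans (le_of_eq ?_)
        rw [hη]
        field_simp
        norm_num
      have v4 : 2 * (1 / (4 * (n : ℝ) ^ 3 * h ^ 3)) * T * C = 4 / h * C := by
        rw [hT]
        push_cast
        field_simp
        norm_num
      rw [v4] at u4
      unfold payR at u4
      rw [Finset.sum_sub_distrib] at u4
      simp only [Finset.sum_ite, Finset.sum_const_zero, add_zero, Finset.sum_const, nsmul_eq_mul,
        mul_one] at u4
      rw [prob_eq, prob_eq, ← hC]
      set win := ((Finset.univ.filter fun w : RA × RB × L =>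
        (eveR L A B outB k1 k2 (2 * n * k2) (exec A B w.2.2 N (iA w.1) (iB w.2.1) m0).1
          (Side.start iA) (Side.start iB) T [] m0).run (w.2.2 : Q → K) =
        outB w.2.1 (exec A B w.2.2 N (iA w.1) (iB w.2.1) m0).2.2).card : ℝ) with hwin
      set agr := ((Finset.univ.filter fun w : RA × RB × L =>
        outA w.1 (exec A B w.2.2 N (iA w.1) (iB w.2.1) m0).2.1 =
        some (outB w.2.1 (exec A B w.2.2 N (iA w.1) (iB w.2.1) m0).2.2)).card : ℝ)
          with hagr
      have u5 : -(win - agr) ≤ 2 * (C - C) + 4 * ((n : ℝ) / k1) * C +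
        8 * ((n : ℝ) / k1) * qpot L n (Side.start iA) (Side.start iB) [] + 4 / h * C + u := u4
      have u6 : agr - win ≤ 25 / h * C := by
        have e5 : (25 : ℝ) / h * C = 4 / h * C + 16 / h * C + 4 / h * C + C / h := by ring
        rw [e5]
        linarith
      rw [sub_le_iff_le_add, div_add' _ _ _ hN.ne', div_le_div_iff_of_pos_right hN]
      linarith

omit [Fintype L] [Fintype RA] [Fintype RB] in
/-- **Oblivious transfer** with any number of rounds. -/
theorem ot_any (L : Submodule K (Q → K)) [Finite L] (R : Party Q K M Bool)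
    (S : Party Q K M (Bool × Bool)) [Fintype R.Tape] [Fintype S.Tape] [Nonempty R.Tape]
    [Nonempty S.Tape] (out : R.St → Option Bool) (m0 : M)
    (N n nR nS h : ℕ) (hab : nR ≤ n ∧ nS ≤ n) (hn : 0 < n) (hh : 0 < h)
    (hR : limited L R false N nR) (hS : ∀ b, limited L S b N nS)
    (δ : ℝ) (b1 : Bool) (hδ : ∀ b0, err L R S out N m0 false b0 b1 ≤ δ) :
    ∃ E : List (M × M) → Comp Q K Bool,
      (∀ t O, ((E t).asked O).length ≤ 1024 * n ^ 11 * (nR + nS).choose nR * h ^ 8) ∧
      1 - 2 * (δ + 25 / h) ≤ advSum L R S N m0 E b1 := by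
  have : Fintype L := Fintype.ofFinite L
  have : Nonempty L := ⟨0⟩
  obtain ⟨E, hE1, hE2⟩ := any_attack L (RA := R.Tape) (RB := Bool × S.Tape) (σ := Bool) R S
    (fun τ => R.init false τ) (fun p => S.init (p.1, b1) p.2) (fun _ s => out s)
    (fun p _ => p.1) m0 n nR nS h N hab hn hh (fun O hO ra l hl => hR O hO ra l hl)
    (fun O hO rb l hl => hS _ O hO rb.2 l hl)
  refine ⟨E, hE1, ?_⟩
  have q1 := prob_bool (T := R.Tape) (U := S.Tape) (V := L) (fun b O τ τ' =>
    out (exec R S O N (R.init false τ) (S.init (b, b1) τ') m0).2.1 = some b)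
  have q2 := prob_bool (T := R.Tape) (U := S.Tape) (V := L) (fun b O τ τ' =>
    (E (exec R S O N (R.init false τ) (S.init (b, b1) τ') m0).1).run (O : Q → K) = b)
  rw [q1, q2] at hE2
  have e1 : ∀ b0, 1 - δ ≤ prob (fun w : L × R.Tape × S.Tape =>
      out (exec R S w.1 N (R.init false w.2.1) (S.init (b0, b1) w.2.2) m0).2.1 = some b0) := by
    intro b0
    have := hδ b0
    unfold err at this
    rw [prob_not] at this
    unfold output at this
    simp only [Bool.false_eq_true, if_false] at this
    linarith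
  have e2 : prob (fun w : L × R.Tape × S.Tape =>
      (E (exec R S w.1 N (R.init false w.2.1) (S.init (false, b1) w.2.2) m0).1).run
        (w.1 : Q → K) = false) = 1 - acc L R S N m0 E false false b1 := by
    unfold acc
    rw [← prob_not]
    congr 1
    funext w
    simp [transcript]
  have e3 : prob (fun w : L × R.Tape × S.Tape =>
      (E (exec R S w.1 N (R.init false w.2.1) (S.init (true, b1) w.2.2) m0).1).run
        (w.1 : Q → K) = true) = acc L R S N m0 E false true b1 := rfl
  have f0 := e1 false
  have f1 := e1 true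
  rw [e2, e3] at hE2
  have a1 := le_abs_self (acc L R S N m0 E true false b1 - acc L R S N m0 E false false b1)
  have a2 := neg_abs_le (acc L R S N m0 E true true b1 - acc L R S N m0 E false true b1)
  have a3 := neg_abs_le (acc L R S N m0 E true true b1 - acc L R S N m0 E true false b1)
  have a4 := le_abs_self (acc L R S N m0 E true true b1 - acc L R S N m0 E true false b1)
  unfold advSum
  linarith

end Pool.Agent.LinOT
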