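import Pool.Agent.Lib.MP_ae38e0_lc.Any.Defs

set_option autoImplicit false

/-!
# The number of queries
-/

namespace Pool.Agent.LinOT

open Classical

variable {K : Type} [Field K] {Q M X Y RA RB StA StB σ : Type}

variable (L : Submodule K (Q → K)) [Fintype L] [Fintype RA] [Fintype RB]

/-- The number of queries of the learning loop. -/
theorem closeB_asked (h1 h2 D : ℕ) (SA : Side Q K StA RA) (SB : Side Q K StB RB) (O : Q → K)
    (j : ℕ) : ∀ kn, ((closeB L h1 h2 D SA SB j kn).asked O).length +
      ((closeB L h1 h2 D SA SB j kn).run O).2 * D ≤ j * D := by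
  induction j with
  | zero =>
    intro kn
    rw [closeB]
    simp
  | succ j ih =>
    intro kn
    rw [closeB]
    split_ifs with hS
    · rw [Comp.asked_bind, Comp.run_bind, Comp.asked_askAll, List.length_append]
      have h1' : hS.2.choose.length ≤ D := hS.2.choose_spec.1
      have h2' := ih (kn ++ hS.2.choose.zip ((Comp.askAll hS.2.choose : Comp Q K _).run O))
      have h3 : (j + 1) * D = j * D + D := by ring
      omega
    · simp

/-- The number of queries of the eavesdropper. -/
theorem eveR_asked [Nonempty σ] (A : Party Q K M X) (B : Party Q K M Y)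
    (outB : RB → B.St → σ) (h1 h2 D : ℕ) (O : Q → K) :
    ∀ (l : List (M × M)) (SA : Side Q K A.St RA) (SB : Side Q K B.St RB) (j : ℕ)
      (kn : List (Q × K)) (m : M),
      ((eveR L A B outB h1 h2 D l SA SB j kn m).asked O).length ≤ j * D := by
  intro l
  induction l with
  | nil =>
    intro SA SB j kn m
    rw [eveR, Comp.asked_bind, List.length_append]
    have h := closeB_asked L h1 h2 D SA SB O j kn
    simp only [Comp.asked_ret, List.length_nil]
    omega
  | cons ab l ih =>
    intro SA SB j kn m
    obtain ⟨a, b⟩ := ab
    rw [eveR, Comp.asked_bind, List.length_append, Comp.asked_bind, List.length_append]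
    have h := closeB_asked L h1 h2 D SA SB O j kn
    set x := (closeB L h1 h2 D SA SB j kn).run O with hx
    have h' := closeB_asked L h1 h2 D (SA.next A m a) SB O x.2 x.1
    set y := (closeB L h1 h2 D (SA.next A m a) SB x.2 x.1).run O with hy
    have h'' := ih (SA.next A m a) (SB.next B a b) y.2 y.1 b
    omega

end Pool.Agent.LinOT
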