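import Pool.Agent.Lib.MP_ae38e0_lc.Any.Defs

set_option autoImplicit false

/-!
# The best list of queries
-/

namespace Pool.Agent.LinOT

open Classical

variable {K : Type} [Field K] {Q M X Y RA RB StA StB σ : Type}

variable (L : Submodule K (Q → K)) [Fintype L] [Fintype RA] [Fintype RB]

/-- The empty list has no gain. -/
theorem gain_nil (SA : Side Q K StA RA) (SB : Side Q K StB RB) (kn : List (Q × K)) :
    gain L SA SB kn [] = 0 := by
  unfold gain
  apply Finset.sum_eq_zero
  intro z _
  simp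

/-- A bound for the gain. -/
theorem gain_le (n : ℕ) (SA : Side Q K StA RA) (SB : Side Q K StB RB) (kn : List (Q × K))
    (hnA : ∀ (r : RA) (O : L), (SA.q r O).length ≤ n)
    (hnB : ∀ (r : RB) (O : L), (SB.q r O).length ≤ n) (S : List Q) :
    gain L SA SB kn S ≤ 2 * n * (gp L SA SB kn).card := by
  unfold gain
  refine (Finset.sum_le_card_nsmul _ _ (2 * n) ?_).trans (le_of_eq (by rw [smul_eq_mul, mul_comm]))
  intro z _
  have h1 := rk_le L (SA.q z.1.1 z.1.2) (kn.map Prod.fst)
  have h2 := rk_le L (SB.q z.2.1 z.2.2) (kn.map Prod.fst)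
  have h3 := hnA z.1.1 z.1.2
  have h4 := hnB z.2.1 z.2.2
  omega

/-- A best list exists. -/
theorem best_exists (n h2 : ℕ) (SA : Side Q K StA RA) (SB : Side Q K StB RB) (kn : List (Q × K))
    (hnA : ∀ (r : RA) (O : L), (SA.q r O).length ≤ n)
    (hnB : ∀ (r : RB) (O : L), (SB.q r O).length ≤ n) (h0 : 0 < (gp L SA SB kn).card) :
    ∃ S, Best L h2 (2 * n * h2) SA SB kn S := by
  set G := (gp L SA SB kn).card with hG
  have hb : ∀ S, h2 * gain L SA SB kn S ≤ h2 * (2 * n * G) := fun S =>
    Nat.mul_le_mul_left _ (gain_le L n SA SB kn hnA hnB S)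
  let d : List Q → ℕ := fun S => h2 * (2 * n * G) + G * S.length - h2 * gain L SA SB kn S
  obtain ⟨S, hS⟩ : ∃ S, ∀ S', d S ≤ d S' := by
    have hne : (Set.range d).Nonempty := ⟨d [], [], rfl⟩
    obtain ⟨S, hS⟩ := Nat.sInf_mem hne
    exact ⟨S, fun S' => by rw [hS]; exact Nat.sInf_le ⟨S', rfl⟩⟩
  have hmain : ∀ S' : List Q, h2 * gain L SA SB kn S' + G * S.length ≤
      h2 * gain L SA SB kn S + G * S'.length := by
    intro S'
    have h1 := hS S'
    have h2' := hb S
    have h3 := hb S'
    simp only [d] at h1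
    omega
  refine ⟨S, ?_, hmain⟩
  have h1 := hmain []
  rw [gain_nil] at h1
  have h3 := hb S
  simp only [List.length_nil, mul_zero, zero_add, add_zero] at h1
  have h4 : G * S.length ≤ G * (2 * n * h2) := by
    calc G * S.length ≤ h2 * gain L SA SB kn S := h1
      _ ≤ h2 * (2 * n * G) := h3
      _ = G * (2 * n * h2) := by ring
  exact Nat.le_of_mul_le_mul_left h4 h0

/-- The gain of a best list if the state is not shut. -/
theorem best_gain (h1 h2 D : ℕ) (SA : Side Q K StA RA) (SB : Side Q K StB RB)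
    (kn : List (Q × K)) (S : List Q) (hS : Best L h2 D SA SB kn S) (h12 : 2 * h1 ≤ h2)
    (hns : ¬ Shut L h1 SA SB kn) : (gp L SA SB kn).card ≤ 2 * h1 * gain L SA SB kn S := by
  unfold Shut at hns
  push Not at hns
  obtain ⟨S', hS'⟩ := hns
  have hlen : 1 ≤ S'.length := by
    rcases S' with _ | ⟨a, l⟩
    · rw [gain_nil] at hS'
      simp at hS'
    · simp
  have hB := hS.2 S'
  set G := (gp L SA SB kn).card
  set g := gain L SA SB kn S
  set g' := gain L SA SB kn S'
  have e1 : G ≤ G * S'.length := Nat.le_mul_of_pos_right _ hlen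
  have e2 : 2 * (h1 * g') ≤ h2 * g' := by
    rw [← mul_assoc]; exact Nat.mul_le_mul_right _ h12
  have e3 : h2 * g' < h2 * (2 * g) := by
    have : h2 * (2 * g) = 2 * (h2 * g) := by ring
    omega
  have e4 : g' ≤ 2 * g := (Nat.lt_of_mul_lt_mul_left e3).le
  have e5 : h1 * g' ≤ 2 * h1 * g := by
    calc h1 * g' ≤ h1 * (2 * g) := Nat.mul_le_mul_left _ e4
      _ = 2 * h1 * g := by ring
  omega

/-- After a best list, short lists touch few parties (weighted by the degree). -/
theorem best_tch (n h2 D : ℕ) (SA : Side Q K StA RA) (SB : Side Q K StB RB)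
    (kn : List (Q × K)) (S : List Q) (hS : Best L h2 D SA SB kn S) (T : List Q)
    (hT : T.length ≤ n) :
    h2 * ((gp L SA SB kn).filter fun z =>
      Tch L (kn.map Prod.fst ++ S) T (SB.q z.2.1 z.2.2)).card ≤ n * (gp L SA SB kn).card := by
  have hB := hS.2 (S ++ T)
  have hg : gain L SA SB kn S + ((gp L SA SB kn).filter fun z =>
      Tch L (kn.map Prod.fst ++ S) T (SB.q z.2.1 z.2.2)).card ≤ gain L SA SB kn (S ++ T) := by
    unfold gain
    rw [Finset.card_filter, ← Finset.sum_add_distrib]
    apply Finset.sum_le_sum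
    intro z _
    have a1 := rk_mono L (SA.q z.1.1 z.1.2) (kn.map Prod.fst) S
    have a2 := rk_mono L (SA.q z.1.1 z.1.2) (kn.map Prod.fst ++ S) T
    have b1 := rk_mono L (SB.q z.2.1 z.2.2) (kn.map Prod.fst) S
    have b2 := rk_mono L (SB.q z.2.1 z.2.2) (kn.map Prod.fst ++ S) T
    rw [← List.append_assoc]
    split_ifs with h
    · have b3 := rk_tch L h
      omega
    · omega
  rw [List.length_append] at hB
  set G := (gp L SA SB kn).card
  set c := ((gp L SA SB kn).filter fun z =>
      Tch L (kn.map Prod.fst ++ S) T (SB.q z.2.1 z.2.2)).card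
  have e1 : h2 * gain L SA SB kn S + h2 * c ≤ h2 * gain L SA SB kn (S ++ T) := by
    rw [← mul_add]; exact Nat.mul_le_mul_left _ hg
  have e2 : G * (S.length + T.length) = G * S.length + G * T.length := by ring
  have e3 : G * T.length ≤ n * G := by
    rw [mul_comm]; exact Nat.mul_le_mul_right _ hT
  omega

end Pool.Agent.LinOT
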