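import Pool.Agent.Lib.MP_ae38e0_lc.Window
import Pool.Agent.Lib.MP_ae38e0_lc.Corr

set_option autoImplicit false

/-!
# Good pairs, good executions, potentials
-/

namespace Pool.Agent.LinOT

open Classical

variable {K : Type} [Field K] {Q M X Y RA RB StA StB σ : Type}

variable (L : Submodule K (Q → K))

/-- Being touched is monotone. -/
theorem tch_append {W S S' T : List Q} (h : Tch L W S T) : Tch L W (S ++ S') T := by
  intro h2
  apply h
  intro D hD
  obtain ⟨D', hD', hT⟩ := h2 D hD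
  refine ⟨D', ⟨hD'.1, fun q hq => hD'.2 q ?_⟩, hT⟩
  simp only [List.mem_append] at hq ⊢
  tauto

variable [Fintype L] [Fintype RA] [Fintype RB]

/-- The pairs of consistent parties whose queries do not touch each other. -/
noncomputable def gp (SA : Side Q K StA RA) (SB : Side Q K StB RB) (kn : List (Q × K)) :
    Finset ((RA × L) × (RB × L)) :=
  (supp L SA kn ×ˢ supp L SB kn).filter fun z =>
    ¬ Tch L (kn.map Prod.fst) (SA.q z.1.1 z.1.2) (SB.q z.2.1 z.2.2)

/-- The real executions in which the queries of the two parties do not touch each other. -/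
noncomputable def gr (SA : Side Q K StA RA) (SB : Side Q K StB RB) (kn : List (Q × K)) :
    Finset (RA × RB × L) :=
  (cs L orc (real L SA SB) kn).filter fun w =>
    ¬ Tch L (kn.map Prod.fst) (SA.q w.1 w.2.2) (SB.q w.2.1 w.2.2)

/-- The number of real executions. -/
noncomputable def nr (SA : Side Q K StA RA) (SB : Side Q K StB RB) (kn : List (Q × K)) : ℝ :=
  ((cs L orc (real L SA SB) kn).card : ℝ)

/-- The number of good real executions. -/
noncomputable def rho (SA : Side Q K StA RA) (SB : Side Q K StB RB) (kn : List (Q × K)) : ℝ :=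
  ((gr L SA SB kn).card : ℝ)

/-- The number of queries which are still free. -/
noncomputable def qpot (n : ℕ) (SA : Side Q K StA RA) (SB : Side Q K StB RB)
    (kn : List (Q × K)) : ℝ :=
  ∑ w ∈ cs L orc (real L SA SB) kn,
    (2 * (n : ℝ) - ((SA.q w.1 w.2.2).length : ℝ) - ((SB.q w.2.1 w.2.2).length : ℝ))

/-- The potential which pays for the learning steps. -/
noncomputable def pot (n : ℕ) (SA : Side Q K StA RA) (SB : Side Q K StB RB)
    (kn : List (Q × K)) : ℝ :=
  ∑ w ∈ cs L orc (real L SA SB) kn,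
    (2 * (n : ℝ) - ((SA.q w.1 w.2.2).length : ℝ) - ((SB.q w.2.1 w.2.2).length : ℝ) +
      (rk L (SA.q w.1 w.2.2) (kn.map Prod.fst) : ℝ) +
      (rk L (SB.q w.2.1 w.2.2) (kn.map Prod.fst) : ℝ))

/-- The total drop of the ranks over the good pairs if the list `S` is asked. -/
noncomputable def gain (SA : Side Q K StA RA) (SB : Side Q K StB RB) (kn : List (Q × K))
    (S : List Q) : ℕ :=
  ∑ z ∈ gp L SA SB kn,
    ((rk L (SA.q z.1.1 z.1.2) (kn.map Prod.fst) - rk L (SA.q z.1.1 z.1.2) (kn.map Prod.fst ++ S)) +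
     (rk L (SB.q z.2.1 z.2.2) (kn.map Prod.fst) - rk L (SB.q z.2.1 z.2.2) (kn.map Prod.fst ++ S)))

/-- No list of queries has a large gain. -/
def Shut (h1 : ℕ) (SA : Side Q K StA RA) (SB : Side Q K StB RB) (kn : List (Q × K)) : Prop :=
  ∀ S : List Q, h1 * gain L SA SB kn S ≤ (gp L SA SB kn).card * S.length

/-- `S` is the best list of queries at the scale `h2`. -/
def Best (h2 D : ℕ) (SA : Side Q K StA RA) (SB : Side Q K StB RB) (kn : List (Q × K))
    (S : List Q) : Prop :=
  S.length ≤ D ∧ ∀ S' : List Q, h2 * gain L SA SB kn S' + (gp L SA SB kn).card * S.length ≤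
    h2 * gain L SA SB kn S + (gp L SA SB kn).card * S'.length

/-- The learning loop: `j` is the number of learning steps which are still allowed. -/
noncomputable def closeB (h1 h2 D : ℕ) (SA : Side Q K StA RA) (SB : Side Q K StB RB) :
    ℕ → List (Q × K) → Comp Q K (List (Q × K) × ℕ)
  | 0, kn => .ret (kn, 0)
  | j + 1, kn =>
    if hS : (¬ Shut L h1 SA SB kn ∧ nr L SA SB kn ≤ 2 * rho L SA SB kn) ∧
        ∃ S : List Q, Best L h2 D SA SB kn S then
      (Comp.askAll hS.2.choose).bind fun ans => closeB h1 h2 D SA SB j (kn ++ hS.2.choose.zip ans)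
    else .ret (kn, j + 1)

/-- The eavesdropper. -/
noncomputable def eveR [Nonempty σ] (A : Party Q K M X) (B : Party Q K M Y)
    (outB : RB → B.St → σ) (h1 h2 D : ℕ) :
    List (M × M) → Side Q K A.St RA → Side Q K B.St RB → ℕ → List (Q × K) → M → Comp Q K σ
  | [], SA, SB, j, kn, _ =>
    (closeB L h1 h2 D SA SB j kn).bind fun x => .ret (guess L SB outB x.1)
  | (a, b) :: l, SA, SB, j, kn, m =>
    (closeB L h1 h2 D SA SB j kn).bind fun x =>
      (closeB L h1 h2 D (SA.next A m a) SB x.2 x.1).bind fun y =>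
        eveR A B outB h1 h2 D l (SA.next A m a) (SB.next B a b) y.2 y.1 b

/-- The payoff of an execution with `i` rounds to go. -/
noncomputable def payR [Nonempty σ] (A : Party Q K M X) (B : Party Q K M Y)
    (outA : RA → A.St → Option σ) (outB : RB → B.St → σ) (h1 h2 D i : ℕ)
    (SA : Side Q K A.St RA) (SB : Side Q K B.St RB) (j : ℕ) (kn : List (Q × K)) (m : M)
    (w : RA × RB × L) : ℝ :=
  (if (eveR L A B outB h1 h2 D (exec A B w.2.2 i (SA.s w.1 w.2.2) (SB.s w.2.1 w.2.2) m).1
      SA SB j kn m).run (w.2.2 : Q → K) =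
      outB w.2.1 (exec A B w.2.2 i (SA.s w.1 w.2.2) (SB.s w.2.1 w.2.2) m).2.2 then (1 : ℝ)
    else 0) -
  (if outA w.1 (exec A B w.2.2 i (SA.s w.1 w.2.2) (SB.s w.2.1 w.2.2) m).2.1 =
      some (outB w.2.1 (exec A B w.2.2 i (SA.s w.1 w.2.2) (SB.s w.2.1 w.2.2) m).2.2)
    then (1 : ℝ) else 0)

/-- The bound of the loss without the term for the exhausted budget. -/
noncomputable def bnd (n : ℕ) (η β : ℝ) (SA : Side Q K StA RA) (SB : Side Q K StB RB) (j : ℕ)
    (kn : List (Q × K)) : ℝ :=
  2 * (nr L SA SB kn - rho L SA SB kn) + 4 * η * nr L SA SB kn + 8 * η * qpot L n SA SB kn +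
    2 * β * j * nr L SA SB kn

/-- The sum `x` of the payoffs is as large as wanted. -/
def Fine (n h1 : ℕ) (η β : ℝ) (SA : Side Q K StA RA) (SB : Side Q K StB RB) (j : ℕ)
    (kn : List (Q × K)) (x : ℝ) : Prop :=
  ∃ u : ℝ, 0 ≤ u ∧ u ≤ nr L SA SB kn ∧ (j : ℝ) * u ≤ 4 * (h1 : ℝ) * pot L n SA SB kn ∧
    -x ≤ bnd L n η β SA SB j kn + u

end Pool.Agent.LinOT
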