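import Pool.Agent.Lib.MP_ae38e0_lc.Any.ShutStep

set_option autoImplicit false

/-!
# The bound of the loss in a step of a party
-/

namespace Pool.Agent.LinOT

open Classical

variable {K : Type} [Field K] {Q M X Y RA RB StA StB σ : Type}

variable (L : Submodule K (Q → K)) [Fintype L] [Fintype RA] [Fintype RB]

/-- The sum of the states after a step of the first party. -/
theorem fine_stepA (n h1 : ℕ) (β : ℝ) (A : Party Q K M X) (SA : Side Q K A.St RA)
    (SB : Side Q K StB RB) (hA : SA.Loc) (hB : SB.Loc) (j : ℕ) (kn : List (Q × K)) (m : M)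
    (hs : Shut L h1 SA SB kn) (h4 : 4 * n ≤ h1) (hn0 : 0 < n)
    (hnA : ∀ (r : RA) (O : L), (SA.q r O ++ (A.step (SA.s r O) m).asked (O : Q → K)).length ≤ n)
    (hnB : ∀ (r : RB) (O : L), (SB.q r O).length ≤ n) (x : M → ℝ)
    (hx : ∀ a, Fine L n h1 ((n : ℝ) / h1) β (SA.next A m a) SB j kn (x a)) :
    Fine L n h1 ((n : ℝ) / h1) β SA SB j kn (∑ a ∈ reps L A.step SA.s m, x a) := by
  choose u hu0 hun huj hux using hx
  have hnr : ∑ a ∈ reps L A.step SA.s m, nr L (SA.next A m a) SB kn = nr L SA SB kn := by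
    have h := sum_stepA L A SA SB kn m (fun _ => (1 : ℝ))
    simpa [nr] using h
  have hpot := pot_stepA L n A SA SB kn m
  have hsh := shut_stepA L n h1 A SA SB hA hB kn m hs h4 hn0 hnA hnB
  refine ⟨∑ a ∈ reps L A.step SA.s m, u a, Finset.sum_nonneg fun a _ => hu0 a, ?_, ?_, ?_⟩
  · rw [← hnr]
    exact Finset.sum_le_sum fun a _ => hun a
  · rw [Finset.mul_sum]
    calc ∑ a ∈ reps L A.step SA.s m, (j : ℝ) * u a
        ≤ ∑ a ∈ reps L A.step SA.s m, 4 * (h1 : ℝ) * pot L n (SA.next A m a) SB kn :=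
          Finset.sum_le_sum fun a _ => huj a
      _ = 4 * (h1 : ℝ) * ∑ a ∈ reps L A.step SA.s m, pot L n (SA.next A m a) SB kn := by
          rw [Finset.mul_sum]
      _ ≤ 4 * (h1 : ℝ) * pot L n SA SB kn :=
          mul_le_mul_of_nonneg_left hpot (by positivity)
  · have h1' : -∑ a ∈ reps L A.step SA.s m, x a ≤ ∑ a ∈ reps L A.step SA.s m,
        (bnd L n ((n : ℝ) / h1) β (SA.next A m a) SB j kn + u a) := by
      rw [← Finset.sum_neg_distrib]
      exact Finset.sum_le_sum fun a _ => hux a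
    rw [Finset.sum_add_distrib] at h1'
    have h2 : ∑ a ∈ reps L A.step SA.s m, bnd L n ((n : ℝ) / h1) β (SA.next A m a) SB j kn =
        2 * (nr L SA SB kn - ∑ a ∈ reps L A.step SA.s m, rho L (SA.next A m a) SB kn) +
        4 * ((n : ℝ) / h1) * nr L SA SB kn +
        8 * ((n : ℝ) / h1) * ∑ a ∈ reps L A.step SA.s m, qpot L n (SA.next A m a) SB kn +
        2 * β * j * nr L SA SB kn := by
      simp only [bnd, Finset.sum_add_distrib, Finset.sum_sub_distrib, ← Finset.mul_sum, hnr]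
    rw [h2] at h1'
    unfold bnd
    linarith

/-- The sum of the states after a step of the second party. -/
theorem fine_stepB (n h1 : ℕ) (β : ℝ) (B : Party Q K M Y) (SA : Side Q K StA RA)
    (SB : Side Q K B.St RB) (hA : SA.Loc) (hB : SB.Loc) (j : ℕ) (kn : List (Q × K)) (m : M)
    (hs : Shut L h1 SA SB kn) (h4 : 4 * n ≤ h1) (hn0 : 0 < n)
    (hnA : ∀ (r : RA) (O : L), (SA.q r O).length ≤ n)
    (hnB : ∀ (r : RB) (O : L), (SB.q r O ++ (B.step (SB.s r O) m).asked (O : Q → K)).length ≤ n)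
    (x : M → ℝ)
    (hx : ∀ b, Fine L n h1 ((n : ℝ) / h1) β SA (SB.next B m b) j kn (x b)) :
    Fine L n h1 ((n : ℝ) / h1) β SA SB j kn (∑ b ∈ reps L B.step SB.s m, x b) := by
  choose u hu0 hun huj hux using hx
  have hnr : ∑ b ∈ reps L B.step SB.s m, nr L SA (SB.next B m b) kn = nr L SA SB kn := by
    have h := sum_stepB L B SA SB kn m (fun _ => (1 : ℝ))
    simpa [nr] using h
  have hpot := pot_stepB L n B SA SB kn m
  have hsh := shut_stepB L n h1 B SA SB hA hB kn m hs h4 hn0 hnA hnB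
  refine ⟨∑ b ∈ reps L B.step SB.s m, u b, Finset.sum_nonneg fun b _ => hu0 b, ?_, ?_, ?_⟩
  · rw [← hnr]
    exact Finset.sum_le_sum fun b _ => hun b
  · rw [Finset.mul_sum]
    calc ∑ b ∈ reps L B.step SB.s m, (j : ℝ) * u b
        ≤ ∑ b ∈ reps L B.step SB.s m, 4 * (h1 : ℝ) * pot L n SA (SB.next B m b) kn :=
          Finset.sum_le_sum fun b _ => huj b
      _ = 4 * (h1 : ℝ) * ∑ b ∈ reps L B.step SB.s m, pot L n SA (SB.next B m b) kn := by
          rw [Finset.mul_sum]
      _ ≤ 4 * (h1 : ℝ) * pot L n SA SB kn :=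
          mul_le_mul_of_nonneg_left hpot (by positivity)
  · have h1' : -∑ b ∈ reps L B.step SB.s m, x b ≤ ∑ b ∈ reps L B.step SB.s m,
        (bnd L n ((n : ℝ) / h1) β SA (SB.next B m b) j kn + u b) := by
      rw [← Finset.sum_neg_distrib]
      exact Finset.sum_le_sum fun b _ => hux b
    rw [Finset.sum_add_distrib] at h1'
    have h2 : ∑ b ∈ reps L B.step SB.s m, bnd L n ((n : ℝ) / h1) β SA (SB.next B m b) j kn =
        2 * (nr L SA SB kn - ∑ b ∈ reps L B.step SB.s m, rho L SA (SB.next B m b) kn) +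
        4 * ((n : ℝ) / h1) * nr L SA SB kn +
        8 * ((n : ℝ) / h1) * ∑ b ∈ reps L B.step SB.s m, qpot L n SA (SB.next B m b) kn +
        2 * β * j * nr L SA SB kn := by
      simp only [bnd, Finset.sum_add_distrib, Finset.sum_sub_distrib, ← Finset.mul_sum, hnr]
    rw [h2] at h1'
    unfold bnd
    linarith

end Pool.Agent.LinOT
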