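import Pool.Agent.Lib.MP_ae38e0_lc.Any.Defs

set_option autoImplicit false

/-!
# Good pairs and good executions
-/

namespace Pool.Agent.LinOT

open Classical

variable {K : Type} [Field K] {Q M X Y RA RB StA StB σ : Type}

variable (L : Submodule K (Q → K)) [Fintype L] [Fintype RA] [Fintype RB]

omit [Fintype L] [Fintype RA] [Fintype RB] in
/-- The answers to `T` can be corrected without changing the answers to `S`. -/
theorem P3_phi (W : List Q) : ∃ φ : List Q → List Q → L → L,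
    ∀ (S T : List Q) (D : L), ¬ Tch L W S T →
    (D : Q → K) ∈ killer L W → ((φ S T D : L) : Q → K) ∈ killer L (W ++ S) ∧
      ∀ x ∈ T, ((φ S T D : L) : Q → K) x = (D : Q → K) x := by
  have hφ : ∀ (S T : List Q) (D : L), ∃ D' : L, ¬ Tch L W S T → (D : Q → K) ∈ killer L W →
      (D' : Q → K) ∈ killer L (W ++ S) ∧ ∀ x ∈ T, (D' : Q → K) x = (D : Q → K) x := by
    intro S T D
    by_cases h : ¬ Tch L W S T ∧ (D : Q → K) ∈ killer L W
    · obtain ⟨h1, h2⟩ := h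
      unfold Tch at h1
      push Not at h1
      obtain ⟨D', hD', hT⟩ := h1 D h2
      exact ⟨⟨D', hD'.1⟩, fun _ _ => ⟨hD', hT⟩⟩
    · exact ⟨0, fun h1 h2 => absurd ⟨h1, h2⟩ h⟩
  choose φ hφ using hφ
  exact ⟨φ, hφ⟩

omit [Fintype RA] [Fintype RB] in
/-- The number of oracles of `L` vanishing on `W`, as a cardinality of a finset. -/
theorem P3_kc (W : List Q) :
    (Finset.univ.filter fun D : L => (D : Q → K) ∈ killer L W).card = kc L W := by
  unfold kc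
  rw [← Fintype.card_subtype, ← Nat.card_eq_fintype_card]
  apply Nat.card_congr
  exact ⟨fun D => ⟨(D.1 : Q → K), D.2⟩, fun D => ⟨⟨D.1, D.2.1⟩, D.2⟩, fun _ => rfl, fun _ => rfl⟩

omit [Fintype L] [Fintype RA] [Fintype RB] in
/-- Adding an element of the killer to a consistent oracle. -/
theorem P3_cons {kn : List (Q × K)} {O D : Q → K} (hO : Cons kn O)
    (hD : ∀ x ∈ kn.map Prod.fst, D x = 0) : Cons kn (O + D) := by
  intro w hw
  rw [Pi.add_apply, hD w.1 (List.mem_map_of_mem hw), hO w hw, add_zero]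

omit [Fintype L] [Fintype RA] [Fintype RB] in
/-- The difference of two consistent oracles. -/
theorem P3_sub {kn : List (Q × K)} {O O' : L} (hO : Cons kn (O : Q → K))
    (hO' : Cons kn (O' : Q → K)) : ((O' - O : L) : Q → K) ∈ killer L (kn.map Prod.fst) := by
  refine ⟨(O' - O).2, ?_⟩
  intro x hx
  obtain ⟨w, hw, rfl⟩ := List.mem_map.mp hx
  simp [hO w hw, hO' w hw]

/-- The good pairs and the good executions, for sums. -/
theorem P3_sum (SA : Side Q K StA RA) (SB : Side Q K StB RB) (hA : SA.Loc) (hB : SB.Loc)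
    (kn : List (Q × K)) (F : RA → RB → List Q → List Q → StA → StB → ℝ) :
    ∑ z ∈ gp L SA SB kn, F z.1.1 z.2.1 (SA.q z.1.1 z.1.2) (SB.q z.2.1 z.2.2)
        (SA.s z.1.1 z.1.2) (SB.s z.2.1 z.2.2) =
      (kc L (kn.map Prod.fst) : ℝ) * ∑ w ∈ gr L SA SB kn, F w.1 w.2.1 (SA.q w.1 w.2.2)
        (SB.q w.2.1 w.2.2) (SA.s w.1 w.2.2) (SB.s w.2.1 w.2.2) := by
  obtain ⟨φ, hφ⟩ := P3_phi L (kn.map Prod.fst)
  -- forward data
  have fwd : ∀ (r : RA) (r' : RB) (O O' D P : L), D = O' - O →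
      P = O + φ (SA.q r O) (SB.q r' O') D →
      Cons kn (O : Q → K) → Cons kn (O' : Q → K) →
      ¬ Tch L (kn.map Prod.fst) (SA.q r O) (SB.q r' O') →
      (D : Q → K) ∈ killer L (kn.map Prod.fst) ∧ Cons kn (P : Q → K) ∧
      (SA.s r O = SA.s r P ∧ SA.q r O = SA.q r P ∧ (SA.P r O ↔ SA.P r P)) ∧
      (SB.s r' O' = SB.s r' P ∧ SB.q r' O' = SB.q r' P ∧ (SB.P r' O' ↔ SB.P r' P)) := by
    intro r r' O O' D P hD hP hO hO' ht
    have hDk : (D : Q → K) ∈ killer L (kn.map Prod.fst) := hD ▸ P3_sub L hO hO'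
    obtain ⟨h1, h2⟩ := hφ _ _ D ht hDk
    refine ⟨hDk, ?_, hA r _ _ ?_, hB r' _ _ ?_⟩
    · rw [hP]
      exact P3_cons hO (fun x hx => h1.2 x (List.mem_append_left _ hx))
    · intro x hx
      rw [hP]
      simp [h1.2 x (List.mem_append_right _ hx)]
    · intro x hx
      have e1 : (P : Q → K) x = (O : Q → K) x + (D : Q → K) x := by
        rw [hP, Submodule.coe_add, Pi.add_apply, h2 x hx]
      rw [e1, hD]
      simp
  -- backward data
  have bwd : ∀ (r : RA) (r' : RB) (P D O O' : L),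
      O = P - φ (SA.q r P) (SB.q r' P) D → O' = O + D →
      Cons kn (P : Q → K) → (D : Q → K) ∈ killer L (kn.map Prod.fst) →
      ¬ Tch L (kn.map Prod.fst) (SA.q r P) (SB.q r' P) →
      Cons kn (O : Q → K) ∧ Cons kn (O' : Q → K) ∧
      (SA.s r P = SA.s r O ∧ SA.q r P = SA.q r O ∧ (SA.P r P ↔ SA.P r O)) ∧
      (SB.s r' P = SB.s r' O' ∧ SB.q r' P = SB.q r' O' ∧ (SB.P r' P ↔ SB.P r' O')) := by
    intro r r' P D O O' hO hO' hP hDk ht
    obtain ⟨h1, h2⟩ := hφ _ _ D ht hDk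
    have c1 : Cons kn (O : Q → K) := by
      have := P3_cons (D := -((φ (SA.q r P) (SB.q r' P) D : L) : Q → K)) hP (fun x hx => by
        rw [Pi.neg_apply, h1.2 x (List.mem_append_left _ hx), neg_zero])
      rw [hO]
      rw [← sub_eq_add_neg] at this
      exact this
    refine ⟨c1, ?_, hA r _ _ ?_, hB r' _ _ ?_⟩
    · rw [hO']
      exact P3_cons c1 (fun x hx => hDk.2 x hx)
    · intro x hx
      rw [hO]
      simp [h1.2 x (List.mem_append_right _ hx)]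
    · intro x hx
      rw [hO', hO]
      simp [h2 x hx]
  have key : ∑ z ∈ gp L SA SB kn, F z.1.1 z.2.1 (SA.q z.1.1 z.1.2) (SB.q z.2.1 z.2.2)
        (SA.s z.1.1 z.1.2) (SB.s z.2.1 z.2.2) =
      ∑ y ∈ (Finset.univ.filter fun D : L => (D : Q → K) ∈ killer L (kn.map Prod.fst)) ×ˢ
        gr L SA SB kn, F y.2.1 y.2.2.1 (SA.q y.2.1 y.2.2.2)
        (SB.q y.2.2.1 y.2.2.2) (SA.s y.2.1 y.2.2.2) (SB.s y.2.2.1 y.2.2.2) := by
    refine Finset.sum_nbij' (i := fun z => (z.2.2 - z.1.2, (z.1.1, z.2.1,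
        z.1.2 + φ (SA.q z.1.1 z.1.2) (SB.q z.2.1 z.2.2) (z.2.2 - z.1.2))))
      (j := fun y => ((y.2.1, y.2.2.2 - φ (SA.q y.2.1 y.2.2.2) (SB.q y.2.2.1 y.2.2.2) y.1),
        (y.2.2.1, y.2.2.2 - φ (SA.q y.2.1 y.2.2.2) (SB.q y.2.2.1 y.2.2.2) y.1 + y.1)))
      ?_ ?_ ?_ ?_ ?_
    · rintro ⟨⟨r, O⟩, ⟨r', O'⟩⟩ hz
      rw [gp, Finset.mem_filter, Finset.mem_product, mem_supp, mem_supp] at hz
      obtain ⟨h1, h2, h3, h4⟩ := fwd r r' O O' _ _ rfl rfl hz.1.1.2 hz.1.2.2 hz.2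
      rw [Finset.mem_product, Finset.mem_filter, gr, Finset.mem_filter, mem_cs]
      refine ⟨⟨Finset.mem_univ _, h1⟩, ⟨⟨h3.2.2.mp hz.1.1.1, h4.2.2.mp hz.1.2.1⟩, h2⟩, ?_⟩
      show ¬ Tch L _ (SA.q r _) (SB.q r' _)
      rw [← h3.2.1, ← h4.2.1]
      exact hz.2
    · rintro ⟨D, ⟨r, r', P⟩⟩ hy
      rw [Finset.mem_product, Finset.mem_filter, gr, Finset.mem_filter, mem_cs] at hy
      obtain ⟨h2, h2', h3, h4⟩ := bwd r r' P D _ _ rfl rfl hy.2.1.2 hy.1.2 hy.2.2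
      rw [gp, Finset.mem_filter, Finset.mem_product, mem_supp, mem_supp]
      refine ⟨⟨⟨h3.2.2.mp hy.2.1.1.1, h2⟩, ⟨h4.2.2.mp hy.2.1.1.2, h2'⟩⟩, ?_⟩
      show ¬ Tch L _ (SA.q r _) (SB.q r' _)
      rw [← h3.2.1, ← h4.2.1]
      exact hy.2.2
    · rintro ⟨⟨r, O⟩, ⟨r', O'⟩⟩ hz
      rw [gp, Finset.mem_filter, Finset.mem_product, mem_supp, mem_supp] at hz
      obtain ⟨h1, h2, h3, h4⟩ := fwd r r' O O' _ _ rfl rfl hz.1.1.2 hz.1.2.2 hz.2
      simp only [Prod.mk.injEq, true_and]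
      rw [← h3.2.1, ← h4.2.1]
      constructor
      · abel
      · abel
    · rintro ⟨D, ⟨r, r', P⟩⟩ hy
      rw [Finset.mem_product, Finset.mem_filter, gr, Finset.mem_filter, mem_cs] at hy
      obtain ⟨h2, h2', h3, h4⟩ := bwd r r' P D _ _ rfl rfl hy.2.1.2 hy.1.2 hy.2.2
      simp only [Prod.mk.injEq, true_and]
      rw [← h3.2.1, ← h4.2.1, add_sub_cancel_left]
      exact ⟨rfl, sub_add_cancel _ _⟩
    · rintro ⟨⟨r, O⟩, ⟨r', O'⟩⟩ hz
      rw [gp, Finset.mem_filter, Finset.mem_product, mem_supp, mem_supp] at hz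
      obtain ⟨h1, h2, h3, h4⟩ := fwd r r' O O' _ _ rfl rfl hz.1.1.2 hz.1.2.2 hz.2
      simp only
      rw [← h3.2.1, ← h4.2.1, ← h3.1, ← h4.1]
  rw [key, Finset.sum_product]
  simp only
  rw [Finset.sum_const, nsmul_eq_mul, P3_kc]

/-- The good pairs are the good executions times the oracles which vanish on the known
queries. -/
theorem pair_eq (SA : Side Q K StA RA) (SB : Side Q K StB RB) (hA : SA.Loc) (hB : SB.Loc)
    (kn : List (Q × K)) (Φ : RA → RB → List Q → List Q → StA → StB → Prop) :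
    ((gp L SA SB kn).filter fun z => Φ z.1.1 z.2.1 (SA.q z.1.1 z.1.2) (SB.q z.2.1 z.2.2)
        (SA.s z.1.1 z.1.2) (SB.s z.2.1 z.2.2)).card =
      kc L (kn.map Prod.fst) * ((gr L SA SB kn).filter fun w => Φ w.1 w.2.1 (SA.q w.1 w.2.2)
        (SB.q w.2.1 w.2.2) (SA.s w.1 w.2.2) (SB.s w.2.1 w.2.2)).card := by
  have h := P3_sum L SA SB hA hB kn (fun r r' q q' s s' => if Φ r r' q q' s s' then 1 else 0)
  rw [Finset.sum_boole, Finset.sum_boole] at h
  exact_mod_cast h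

/-- The sum version. -/
theorem pair_sum (SA : Side Q K StA RA) (SB : Side Q K StB RB) (hA : SA.Loc) (hB : SB.Loc)
    (kn : List (Q × K)) (F : RA → RB → List Q → List Q → StA → StB → ℝ) :
    ∑ z ∈ gp L SA SB kn, F z.1.1 z.2.1 (SA.q z.1.1 z.1.2) (SB.q z.2.1 z.2.2)
        (SA.s z.1.1 z.1.2) (SB.s z.2.1 z.2.2) =
      (kc L (kn.map Prod.fst) : ℝ) * ∑ w ∈ gr L SA SB kn, F w.1 w.2.1 (SA.q w.1 w.2.2)
        (SB.q w.2.1 w.2.2) (SA.s w.1 w.2.2) (SB.s w.2.1 w.2.2) :=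
  P3_sum L SA SB hA hB kn F

/-- The number of good pairs. -/
theorem gp_card (SA : Side Q K StA RA) (SB : Side Q K StB RB) (hA : SA.Loc) (hB : SB.Loc)
    (kn : List (Q × K)) :
    ((gp L SA SB kn).card : ℝ) = (kc L (kn.map Prod.fst) : ℝ) * rho L SA SB kn := by
  have h := pair_sum L SA SB hA hB kn (fun _ _ _ _ _ _ => 1)
  simpa [rho] using h

end Pool.Agent.LinOT
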