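import Pool.Agent.Lib.MP_ae38e0_lc.Any.Shut
import Pool.Agent.Lib.MP_ae38e0_lc.Any.Pairs

set_option autoImplicit false

/-!
# The final state
-/

namespace Pool.Agent.LinOT

open Classical

variable {K : Type} [Field K] {Q M X Y RA RB StA StB σ : Type}

variable (L : Submodule K (Q → K)) [Fintype L] [Fintype RA] [Fintype RB]

private theorem leaf_gp_eq (SA : Side Q K StA RA) (SB : Side Q K StB RB) (kn : List (Q × K)) :
    (gp L SA SB kn).card = ∑ p ∈ supp L SA kn, ((supp L SB kn).filter fun p' =>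
      ¬ Tch L (kn.map Prod.fst) (SA.q p.1 p.2) (SB.q p'.1 p'.2)).card := by
  unfold gp
  rw [Finset.card_filter, Finset.sum_product]
  refine Finset.sum_congr rfl fun p _ => ?_
  rw [Finset.card_filter]

private theorem leaf_gp_tp (SA : Side Q K StA RA) (SB : Side Q K StB RB) (kn : List (Q × K)) :
    (gp L SA SB kn).card + tp L SA SB kn = (supp L SA kn).card * (supp L SB kn).card := by
  unfold gp tp
  rw [← Finset.card_product, add_comm]
  exact Finset.card_filter_add_card_filter_not (s := supp L SA kn ×ˢ supp L SB kn)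
    (fun z => Tch L (kn.map Prod.fst) (SA.q z.1.1 z.1.2) (SB.q z.2.1 z.2.2))

private theorem leaf_rho_le (SA : Side Q K StA RA) (SB : Side Q K StB RB) (kn : List (Q × K)) :
    rho L SA SB kn ≤ nr L SA SB kn := by
  unfold rho nr gr
  exact_mod_cast Finset.card_filter_le _ _

/-- The final state. -/
theorem leaf_shut [Nonempty σ] (n h1 : ℕ) (SA : Side Q K StA RA) (SB : Side Q K StB RB)
    (hA : SA.Loc) (hB : SB.Loc) (outA : RA → StA → Option σ) (outB : RB → StB → σ)
    (kn : List (Q × K)) (hs : Shut L h1 SA SB kn) (h4 : 4 * n ≤ h1) (hn0 : 0 < n)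
    (hnA : ∀ (r : RA) (O : L), (SA.q r O).length ≤ n)
    (hnB : ∀ (r : RB) (O : L), (SB.q r O).length ≤ n) :
    -(nr L SA SB kn - rho L SA SB kn) - 4 * ((n : ℝ) / h1) * nr L SA SB kn ≤
      ∑ w ∈ cs L orc (real L SA SB) kn,
        ((if guess L SB outB kn = outB w.2.1 (SB.s w.2.1 w.2.2) then (1 : ℝ) else 0) -
          (if outA w.1 (SA.s w.1 w.2.2) = some (outB w.2.1 (SB.s w.2.1 w.2.2)) then (1 : ℝ)
            else 0)) := by
  have hk : (0 : ℝ) < kc L (kn.map Prod.fst) := by exact_mod_cast kc_pos L _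
  have hrho0 : 0 ≤ rho L SA SB kn := by unfold rho; positivity
  have hnr0 : 0 ≤ nr L SA SB kn := by unfold nr; positivity
  have hle := leaf_rho_le L SA SB kn
  have hh1 : 0 < h1 := by omega
  have hh1r : (0 : ℝ) < h1 := by exact_mod_cast hh1
  have hη : 0 ≤ (n : ℝ) / h1 := by positivity
  have hg := gp_card L SA SB hA hB kn
  rcases Nat.eq_zero_or_pos (gp L SA SB kn).card with h0 | h0
  · -- no good pairs
    rw [h0] at hg
    have hr : rho L SA SB kn = 0 := by
      have h2 : (kc L (kn.map Prod.fst) : ℝ) * rho L SA SB kn = 0 := by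
        rw [← hg]; simp
      exact (mul_eq_zero.mp h2).resolve_left hk.ne'
    have hb : -(nr L SA SB kn) ≤ ∑ w ∈ cs L orc (real L SA SB) kn,
        ((if guess L SB outB kn = outB w.2.1 (SB.s w.2.1 w.2.2) then (1 : ℝ) else 0) -
          (if outA w.1 (SA.s w.1 w.2.2) = some (outB w.2.1 (SB.s w.2.1 w.2.2)) then (1 : ℝ)
            else 0)) := by
      have h3 : -(nr L SA SB kn) = ∑ w ∈ cs L orc (real L SA SB) kn, (-1 : ℝ) := by
        unfold nr
        rw [Finset.sum_const, nsmul_eq_mul]
        ring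
      rw [h3]
      refine Finset.sum_le_sum fun w _ => ?_
      split_ifs <;> norm_num
    refine le_trans ?_ hb
    rw [hr]
    have : 0 ≤ 4 * ((n : ℝ) / h1) * nr L SA SB kn := by positivity
    linarith
  · have htp : (h1 : ℝ) * tp L SA SB kn ≤ 4 * n * (gp L SA SB kn).card := by
      rw [tp_eq, leaf_gp_eq]
      push_cast
      rw [Finset.mul_sum, Finset.mul_sum]
      refine Finset.sum_le_sum fun p hp => ?_
      exact shut_few L n h1 SA SB kn hs h4 hnA hnB h0 (SA.q p.1 p.2) (hnA p.1 p.2) p hp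
    have htp' : (tp L SA SB kn : ℝ) ≤ 4 * ((n : ℝ) / h1) * (gp L SA SB kn).card := by
      have e : 4 * ((n : ℝ) / h1) * (gp L SA SB kn).card =
          (4 * n * (gp L SA SB kn).card) / h1 := by ring
      rw [e, le_div_iff₀ hh1r]
      linarith
    have hsum : ((gp L SA SB kn).card : ℝ) + tp L SA SB kn =
        (supp L SA kn).card * (supp L SB kn).card := by
      exact_mod_cast leaf_gp_tp L SA SB kn
    have h2 := leaf2 L SA SB hA hB outA outB kn
    refine le_trans ?_ h2
    have h3 : (1 - 4 * ((n : ℝ) / h1)) * rho L SA SB kn ≤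
        (((supp L SA kn).card : ℝ) * (supp L SB kn).card - 2 * tp L SA SB kn) /
        (kc L (kn.map Prod.fst) : ℝ) := by
      rw [le_div_iff₀ hk, ← hsum]
      have e : (1 - 4 * ((n : ℝ) / h1)) * rho L SA SB kn * (kc L (kn.map Prod.fst) : ℝ) =
          (1 - 4 * ((n : ℝ) / h1)) * (gp L SA SB kn).card := by
        rw [hg]; ring
      rw [e]
      linarith
    have h4' : 4 * ((n : ℝ) / h1) * rho L SA SB kn ≤ 4 * ((n : ℝ) / h1) * nr L SA SB kn :=
      mul_le_mul_of_nonneg_left hle (by positivity)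
    have e2 : ((cs L orc (real L SA SB) kn).card : ℝ) = nr L SA SB kn := rfl
    rw [e2]
    linarith

end Pool.Agent.LinOT
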