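import Pool.Agent.Lib.MP_ae38e0_lc.Any.LearnBad
import Pool.Agent.Lib.MP_ae38e0_lc.Any.Pairs

set_option autoImplicit false

/-!
# One learning step
-/

namespace Pool.Agent.LinOT

open Classical

variable {K : Type} [Field K] {Q M X Y RA RB StA StB σ : Type}

variable (L : Submodule K (Q → K)) [Fintype L] [Fintype RA] [Fintype RB]

/-- The list of the known queries after a learning step. -/
theorem fst_zip_answers (kn : List (Q × K)) (S : List Q) {a : List K} (ha : a ∈ answers L S) :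
    (kn ++ S.zip a).map Prod.fst = kn.map Prod.fst ++ S := by
  rw [List.map_append, List.map_fst_zip (by rw [answers_length L ha])]

/-- The good executions after a learning step. -/
theorem learn_rho (n a b h2 D : ℕ) (hab : a ≤ n ∧ b ≤ n) (SA : Side Q K StA RA) (SB : Side Q K StB RB) (hA : SA.Loc)
    (hB : SB.Loc) (kn : List (Q × K)) (S : List Q) (hS : Best L h2 D SA SB kn S) (hh : 0 < h2)
    (hnA : ∀ (r : RA) (O : L), (SA.q r O).length ≤ a)
    (hnB : ∀ (r : RB) (O : L), (SB.q r O).length ≤ b) (t : ℝ) (ht : 0 < t) :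
    rho L SA SB kn - (t * n / h2 + ((a + b).choose a : ℕ) / t) * nr L SA SB kn ≤
      ∑ c ∈ answers L S, rho L SA SB (kn ++ S.zip c) := by
  set W := kn.map Prod.fst with hW
  set e : ℝ := t * n / h2 + ((a + b).choose a : ℕ) / t with he
  have he0 : 0 ≤ e := by positivity
  have hk : (0 : ℝ) < kc L W := by exact_mod_cast kc_pos L _
  -- the sum over the answers
  have e1 : ∑ c ∈ answers L S, rho L SA SB (kn ++ S.zip c) =
      (((cs L orc (real L SA SB) kn).filter fun w =>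
        ¬ Tch L (W ++ S) (SA.q w.1 w.2.2) (SB.q w.2.1 w.2.2)).card : ℝ) := by
    have h1 := sum_answers L orc (real L SA SB) kn S (fun w =>
      if ¬ Tch L (W ++ S) (SA.q w.1 w.2.2) (SB.q w.2.1 w.2.2) then (1 : ℝ) else 0)
    rw [Finset.card_filter]
    push_cast
    rw [← h1]
    refine Finset.sum_congr rfl fun c hc => ?_
    unfold rho gr
    rw [fst_zip_answers L kn S hc, Finset.card_filter]
    push_cast
    rfl
  -- the good executions which are spoiled
  have e2 : (gr L SA SB kn).card ≤ ((cs L orc (real L SA SB) kn).filter fun w =>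
        ¬ Tch L (W ++ S) (SA.q w.1 w.2.2) (SB.q w.2.1 w.2.2)).card +
      ((gr L SA SB kn).filter fun w =>
        Tch L (W ++ S) (SA.q w.1 w.2.2) (SB.q w.2.1 w.2.2)).card := by
    refine le_trans (Finset.card_le_card ?_) (Finset.card_union_le _ _)
    intro w hw
    rw [Finset.mem_union, Finset.mem_filter, Finset.mem_filter]
    by_cases hT : Tch L (W ++ S) (SA.q w.1 w.2.2) (SB.q w.2.1 w.2.2)
    · exact Or.inr ⟨hw, hT⟩
    · exact Or.inl ⟨(Finset.mem_filter.mp hw).1, hT⟩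
  have e3 := pair_eq L SA SB hA hB kn (fun _ _ q q' _ _ => Tch L (W ++ S) q q')
  have e4 := learn_bad L n a b h2 D hab SA SB kn S hS hh hnA hnB t ht
  have e5 := gp_card L SA SB hA hB kn
  rw [← hW] at e4 e5
  have e6 : ((((gr L SA SB kn).filter fun w =>
        Tch L (W ++ S) (SA.q w.1 w.2.2) (SB.q w.2.1 w.2.2)).card : ℕ) : ℝ) ≤
      e * rho L SA SB kn := by
    have h3 : (((gp L SA SB kn).filter fun z =>
        Tch L (W ++ S) (SA.q z.1.1 z.1.2) (SB.q z.2.1 z.2.2)).card : ℝ) =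
        (kc L W : ℝ) * (((gr L SA SB kn).filter fun w =>
        Tch L (W ++ S) (SA.q w.1 w.2.2) (SB.q w.2.1 w.2.2)).card : ℝ) := by
      exact_mod_cast e3
    rw [h3, e5] at e4
    have h4 : (kc L W : ℝ) * (((gr L SA SB kn).filter fun w =>
        Tch L (W ++ S) (SA.q w.1 w.2.2) (SB.q w.2.1 w.2.2)).card : ℝ) ≤
        (kc L W : ℝ) * (e * rho L SA SB kn) := by
      refine e4.trans (le_of_eq ?_)
      rw [he]
      ring
    exact le_of_mul_le_mul_left h4 hk
  have e7 : rho L SA SB kn ≤ nr L SA SB kn := by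
    unfold rho nr gr
    exact_mod_cast Finset.card_filter_le _ _
  have e8 : e * rho L SA SB kn ≤ e * nr L SA SB kn := mul_le_mul_of_nonneg_left e7 he0
  have e9 : rho L SA SB kn ≤ (((cs L orc (real L SA SB) kn).filter fun w =>
        ¬ Tch L (W ++ S) (SA.q w.1 w.2.2) (SB.q w.2.1 w.2.2)).card : ℝ) +
      (((gr L SA SB kn).filter fun w =>
        Tch L (W ++ S) (SA.q w.1 w.2.2) (SB.q w.2.1 w.2.2)).card : ℝ) := by
    unfold rho
    exact_mod_cast e2
  rw [e1]
  linarith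

/-- The potential after a learning step. -/
theorem learn_pot (n h1 h2 D : ℕ) (SA : Side Q K StA RA) (SB : Side Q K StB RB) (hA : SA.Loc)
    (hB : SB.Loc) (kn : List (Q × K)) (S : List Q) (hS : Best L h2 D SA SB kn S)
    (h12 : 2 * h1 ≤ h2) (hh : 0 < h1) (hns : ¬ Shut L h1 SA SB kn)
    (hr : nr L SA SB kn ≤ 2 * rho L SA SB kn) :
    4 * (h1 : ℝ) * ∑ a ∈ answers L S, pot L n SA SB (kn ++ S.zip a) + nr L SA SB kn ≤
      4 * (h1 : ℝ) * pot L n SA SB kn := by
  set W := kn.map Prod.fst with hW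
  have hk : (0 : ℝ) < kc L W := by exact_mod_cast kc_pos L _
  have hh' : (0 : ℝ) < h1 := by exact_mod_cast hh
  -- the sum over the answers
  have e1 : ∑ a ∈ answers L S, pot L n SA SB (kn ++ S.zip a) =
      ∑ w ∈ cs L orc (real L SA SB) kn,
        (2 * (n : ℝ) - ((SA.q w.1 w.2.2).length : ℝ) - ((SB.q w.2.1 w.2.2).length : ℝ) +
          (rk L (SA.q w.1 w.2.2) (W ++ S) : ℝ) + (rk L (SB.q w.2.1 w.2.2) (W ++ S) : ℝ)) := by
    rw [← sum_answers L orc (real L SA SB) kn S]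
    refine Finset.sum_congr rfl fun a ha => ?_
    unfold pot
    rw [fst_zip_answers L kn S ha]
  -- the drop of the potential
  have e2 : pot L n SA SB kn - ∑ a ∈ answers L S, pot L n SA SB (kn ++ S.zip a) =
      ∑ w ∈ cs L orc (real L SA SB) kn,
        (((rk L (SA.q w.1 w.2.2) W : ℝ) - (rk L (SA.q w.1 w.2.2) (W ++ S) : ℝ)) +
          ((rk L (SB.q w.2.1 w.2.2) W : ℝ) - (rk L (SB.q w.2.1 w.2.2) (W ++ S) : ℝ))) := by
    rw [e1]
    unfold pot
    rw [← Finset.sum_sub_distrib]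
    refine Finset.sum_congr rfl fun w _ => ?_
    rw [← hW]
    ring
  have hdrop : ∀ T : List Q, (0 : ℝ) ≤ (rk L T W : ℝ) - (rk L T (W ++ S) : ℝ) := by
    intro T
    rw [sub_nonneg]
    exact_mod_cast rk_mono L T W S
  have e3 : ∑ w ∈ gr L SA SB kn,
        (((rk L (SA.q w.1 w.2.2) W : ℝ) - (rk L (SA.q w.1 w.2.2) (W ++ S) : ℝ)) +
          ((rk L (SB.q w.2.1 w.2.2) W : ℝ) - (rk L (SB.q w.2.1 w.2.2) (W ++ S) : ℝ))) ≤
      ∑ w ∈ cs L orc (real L SA SB) kn,
        (((rk L (SA.q w.1 w.2.2) W : ℝ) - (rk L (SA.q w.1 w.2.2) (W ++ S) : ℝ)) +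
          ((rk L (SB.q w.2.1 w.2.2) W : ℝ) - (rk L (SB.q w.2.1 w.2.2) (W ++ S) : ℝ))) := by
    refine Finset.sum_le_sum_of_subset_of_nonneg (Finset.filter_subset _ _) fun w _ _ => ?_
    exact add_nonneg (hdrop _) (hdrop _)
  have e4 := pair_sum L SA SB hA hB kn (fun _ _ q q' _ _ =>
    ((rk L q W : ℝ) - (rk L q (W ++ S) : ℝ)) + ((rk L q' W : ℝ) - (rk L q' (W ++ S) : ℝ)))
  have e5 : (gain L SA SB kn S : ℝ) = ∑ z ∈ gp L SA SB kn,
      (((rk L (SA.q z.1.1 z.1.2) W : ℝ) - (rk L (SA.q z.1.1 z.1.2) (W ++ S) : ℝ)) +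
        ((rk L (SB.q z.2.1 z.2.2) W : ℝ) - (rk L (SB.q z.2.1 z.2.2) (W ++ S) : ℝ))) := by
    unfold gain
    rw [Nat.cast_sum]
    refine Finset.sum_congr rfl fun z _ => ?_
    rw [← hW, Nat.cast_add, Nat.cast_sub (rk_mono L _ W S), Nat.cast_sub (rk_mono L _ W S)]
  have e6 := best_gain L h1 h2 D SA SB kn S hS h12 hns
  have e7 := gp_card L SA SB hA hB kn
  rw [← hW] at e4 e7
  have e8 : (kc L W : ℝ) * rho L SA SB kn ≤ 2 * h1 * gain L SA SB kn S := by
    rw [← e7]
    exact_mod_cast e6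
  rw [← e5] at e4
  set T : ℝ := ∑ w ∈ gr L SA SB kn,
        (((rk L (SA.q w.1 w.2.2) W : ℝ) - (rk L (SA.q w.1 w.2.2) (W ++ S) : ℝ)) +
          ((rk L (SB.q w.2.1 w.2.2) W : ℝ) - (rk L (SB.q w.2.1 w.2.2) (W ++ S) : ℝ))) with hT
  have e9 : rho L SA SB kn ≤ 2 * h1 * T := by
    have h4 : (kc L W : ℝ) * rho L SA SB kn ≤ (kc L W : ℝ) * (2 * h1 * T) := by
      refine e8.trans (le_of_eq ?_)
      rw [e4]
      ring
    exact le_of_mul_le_mul_left h4 hk
  have e10 : T ≤ pot L n SA SB kn - ∑ a ∈ answers L S, pot L n SA SB (kn ++ S.zip a) := by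
    rw [e2]
    exact e3
  have e11 := mul_le_mul_of_nonneg_left e10 (by positivity : (0 : ℝ) ≤ 4 * h1)
  have e12 : nr L SA SB kn ≤ 4 * h1 * T := by linarith
  rw [mul_sub] at e11
  linarith

/-- The number of executions is additive over the answers. -/
theorem learn_nr (SA : Side Q K StA RA) (SB : Side Q K StB RB) (kn : List (Q × K)) (S : List Q) :
    ∑ a ∈ answers L S, nr L SA SB (kn ++ S.zip a) = nr L SA SB kn :=
  card_answers L orc (real L SA SB) kn S

/-- The number of free queries is additive over the answers. -/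
theorem learn_qpot (n : ℕ) (SA : Side Q K StA RA) (SB : Side Q K StB RB) (kn : List (Q × K))
    (S : List Q) : ∑ a ∈ answers L S, qpot L n SA SB (kn ++ S.zip a) = qpot L n SA SB kn :=
  sum_answers L orc (real L SA SB) kn S _

end Pool.Agent.LinOT
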