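import Pool.Agent.Lib.MP_ae38e0_lc.Any.Best

set_option autoImplicit false

/-!
# A learning step spoils few good pairs
-/

namespace Pool.Agent.LinOT

open Classical

variable {K : Type} [Field K] {Q M X Y RA RB StA StB σ : Type}

variable (L : Submodule K (Q → K)) [Fintype L] [Fintype RA] [Fintype RB]

/-- A learning step spoils few good pairs. -/
theorem learn_bad (n a b h2 D : ℕ) (hab : a ≤ n ∧ b ≤ n) (SA : Side Q K StA RA) (SB : Side Q K StB RB)
    (kn : List (Q × K)) (S : List Q) (hS : Best L h2 D SA SB kn S) (hh : 0 < h2)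
    (hnA : ∀ (r : RA) (O : L), (SA.q r O).length ≤ a)
    (hnB : ∀ (r : RB) (O : L), (SB.q r O).length ≤ b) (t : ℝ) (ht : 0 < t) :
    (((gp L SA SB kn).filter fun z =>
      Tch L (kn.map Prod.fst ++ S) (SA.q z.1.1 z.1.2) (SB.q z.2.1 z.2.2)).card : ℝ) ≤
      (t * n / h2 + ((a + b).choose a : ℕ) / t) * (gp L SA SB kn).card := by
  set W := kn.map Prod.fst with hW
  set A := supp L SA kn with hA
  set B := supp L SB kn with hB
  set G := gp L SA SB kn with hG
  set dA : RA × L → ℝ := fun x =>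
    ((B.filter fun y => ¬ Tch L W (SA.q x.1 x.2) (SB.q y.1 y.2)).card : ℝ) with hdA
  set dB : RB × L → ℝ := fun y =>
    ((A.filter fun x => ¬ Tch L W (SA.q x.1 x.2) (SB.q y.1 y.2)).card : ℝ) with hdB
  have hcorr := tch_corr L W a b A B (fun x => SA.q x.1 x.2) (fun y => SB.q y.1 y.2)
    (fun x _ => hnA x.1 x.2) (fun y _ => hnB y.1 y.2)
  have hsum : ∀ F : (RA × L) × (RB × L) → ℝ, ∑ z ∈ G, F z =
      ∑ x ∈ A, ∑ y ∈ B.filter (fun y => ¬ Tch L W (SA.q x.1 x.2) (SB.q y.1 y.2)), F (x, y) := by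
    intro F
    rw [hG]
    unfold gp
    rw [Finset.sum_filter, Finset.sum_product]
    refine Finset.sum_congr rfl fun x _ => ?_
    rw [Finset.sum_filter]
  have hsum2 : ∀ F : (RA × L) × (RB × L) → ℝ, ∑ z ∈ G, F z =
      ∑ y ∈ B, ∑ x ∈ A.filter (fun x => ¬ Tch L W (SA.q x.1 x.2) (SB.q y.1 y.2)), F (x, y) := by
    intro F
    rw [hG]
    unfold gp
    rw [Finset.sum_filter, Finset.sum_product_right]
    refine Finset.sum_congr rfl fun x _ => ?_
    rw [Finset.sum_filter]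
  have hcorr' : ∑ z ∈ G, 1 / (dA z.1 * dB z.2) ≤ (((a + b).choose a : ℕ) : ℝ) := by
    rw [hsum]
    exact hcorr
  have hdeg : ∀ z ∈ G, 0 < dA z.1 ∧ 0 < dB z.2 := by
    intro z hz
    have h1 := Finset.mem_filter.mp hz
    have h2 := Finset.mem_product.mp h1.1
    constructor
    · have : 0 < (B.filter fun y => ¬ Tch L W (SA.q z.1.1 z.1.2) (SB.q y.1 y.2)).card :=
        Finset.card_pos.mpr ⟨z.2, Finset.mem_filter.mpr ⟨h2.2, h1.2⟩⟩
      exact Nat.cast_pos.mpr this
    · have : 0 < (A.filter fun x => ¬ Tch L W (SA.q x.1 x.2) (SB.q z.2.1 z.2.2)).card :=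
        Finset.card_pos.mpr ⟨z.1, Finset.mem_filter.mpr ⟨h2.1, h1.2⟩⟩
      exact Nat.cast_pos.mpr this
  have hdA0 : ∀ x, 0 ≤ dA x := fun x => Nat.cast_nonneg _
  have hdB0 : ∀ y, 0 ≤ dB y := fun y => Nat.cast_nonneg _
  rcases Nat.eq_zero_or_pos G.card with h0 | h0
  · rw [Finset.card_eq_zero] at h0
    rw [h0]
    simp
  have hg : (0 : ℝ) < G.card := by exact_mod_cast h0
  have hh' : (0 : ℝ) < h2 := by exact_mod_cast hh
  -- pairs with a small product of the degrees
  set G1 := G.filter fun z => t * (dA z.1 * dB z.2) < G.card with hG1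
  have b1 : (G1.card : ℝ) ≤ ((a + b).choose a : ℕ) / t * G.card := by
    have e1 : (G1.card : ℝ) ≤ ∑ z ∈ G1, (G.card : ℝ) / t * (1 / (dA z.1 * dB z.2)) := by
      rw [← nsmul_one, ← Finset.sum_const]
      refine Finset.sum_le_sum fun z hz => ?_
      have h1 := Finset.mem_filter.mp hz
      obtain ⟨h2, h3⟩ := hdeg z h1.1
      have h4 : 0 < dA z.1 * dB z.2 := mul_pos h2 h3
      rw [div_mul_div_comm, mul_one, le_div_iff₀ (mul_pos ht h4), one_mul]
      exact h1.2.le
    have e2 : ∑ z ∈ G1, (G.card : ℝ) / t * (1 / (dA z.1 * dB z.2)) ≤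
        ∑ z ∈ G, (G.card : ℝ) / t * (1 / (dA z.1 * dB z.2)) := by
      refine Finset.sum_le_sum_of_subset_of_nonneg (Finset.filter_subset _ _) fun z hz _ => ?_
      obtain ⟨h2, h3⟩ := hdeg z hz
      positivity
    have e3 : ∑ z ∈ G, (G.card : ℝ) / t * (1 / (dA z.1 * dB z.2)) =
        (G.card : ℝ) / t * ∑ z ∈ G, 1 / (dA z.1 * dB z.2) := by rw [← Finset.mul_sum]
    calc (G1.card : ℝ) ≤ (G.card : ℝ) / t * ∑ z ∈ G, 1 / (dA z.1 * dB z.2) :=
          (e1.trans e2).trans (le_of_eq e3)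
      _ ≤ (G.card : ℝ) / t * ((a + b).choose a : ℕ) :=
        mul_le_mul_of_nonneg_left hcorr' (by positivity)
      _ = _ := by ring
  -- the other pairs
  set G2 := (G.filter fun z => ¬ (t * (dA z.1 * dB z.2) < G.card)).filter fun z =>
    Tch L (W ++ S) (SA.q z.1.1 z.1.2) (SB.q z.2.1 z.2.2) with hG2
  have hin : ∀ x : RA × L, ∑ y ∈ B.filter (fun y => Tch L (W ++ S) (SA.q x.1 x.2)
      (SB.q y.1 y.2)), dB y ≤ n * G.card / h2 := by
    intro x
    have h1 := best_tch L n h2 D SA SB kn S hS (SA.q x.1 x.2) ((hnA x.1 x.2).trans hab.1)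
    have h3 : ∑ y ∈ B.filter (fun y => Tch L (W ++ S) (SA.q x.1 x.2) (SB.q y.1 y.2)), dB y =
        ((G.filter fun z => Tch L (W ++ S) (SA.q x.1 x.2) (SB.q z.2.1 z.2.2)).card : ℝ) := by
      rw [Finset.card_filter]
      push_cast
      rw [hsum2, Finset.sum_filter]
      refine Finset.sum_congr rfl fun y _ => ?_
      split_ifs
      · rw [Finset.sum_const, nsmul_eq_mul, mul_one]
      · rw [Finset.sum_const_zero]
    rw [h3, le_div_iff₀ hh', mul_comm]
    exact_mod_cast h1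
  have b2 : (G2.card : ℝ) ≤ t * n / h2 * G.card := by
    have e1 : (G2.card : ℝ) ≤ ∑ z ∈ G2, t / G.card * (dA z.1 * dB z.2) := by
      rw [← nsmul_one, ← Finset.sum_const]
      refine Finset.sum_le_sum fun z hz => ?_
      have h1 := (Finset.mem_filter.mp (Finset.mem_filter.mp hz).1).2
      rw [not_lt] at h1
      rw [div_mul_eq_mul_div, le_div_iff₀ hg, one_mul]
      exact h1
    have e2 : ∑ z ∈ G2, t / G.card * (dA z.1 * dB z.2) ≤
        ∑ z ∈ (A ×ˢ B).filter (fun z => Tch L (W ++ S) (SA.q z.1.1 z.1.2) (SB.q z.2.1 z.2.2)),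
          t / G.card * (dA z.1 * dB z.2) := by
      refine Finset.sum_le_sum_of_subset_of_nonneg ?_ fun z _ _ => ?_
      · intro z hz
        have h1 := Finset.mem_filter.mp hz
        have h2 := Finset.mem_filter.mp (Finset.mem_filter.mp h1.1).1
        exact Finset.mem_filter.mpr ⟨h2.1, h1.2⟩
      · have := hdA0 z.1
        have := hdB0 z.2
        positivity
    have e3 : ∑ z ∈ (A ×ˢ B).filter (fun z => Tch L (W ++ S) (SA.q z.1.1 z.1.2)
        (SB.q z.2.1 z.2.2)), t / G.card * (dA z.1 * dB z.2) =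
        ∑ x ∈ A, t / G.card * dA x * ∑ y ∈ B.filter (fun y => Tch L (W ++ S) (SA.q x.1 x.2)
          (SB.q y.1 y.2)), dB y := by
      rw [Finset.sum_filter, Finset.sum_product]
      refine Finset.sum_congr rfl fun x _ => ?_
      rw [Finset.mul_sum, Finset.sum_filter]
      refine Finset.sum_congr rfl fun y _ => ?_
      split_ifs
      · ring
      · rfl
    have e4 : ∑ x ∈ A, t / G.card * dA x * ∑ y ∈ B.filter (fun y => Tch L (W ++ S)
        (SA.q x.1 x.2) (SB.q y.1 y.2)), dB y ≤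
        ∑ x ∈ A, t / G.card * dA x * (n * G.card / h2) := by
      refine Finset.sum_le_sum fun x _ => ?_
      have := hdA0 x
      exact mul_le_mul_of_nonneg_left (hin x) (by positivity)
    have e5 : ∑ x ∈ A, dA x = G.card := by
      have := hsum (fun _ => 1)
      simp only [Finset.sum_const, nsmul_eq_mul, mul_one] at this
      exact this.symm
    have e6 : ∑ x ∈ A, t / G.card * dA x * (n * G.card / h2) = t * n / h2 * G.card := by
      rw [← Finset.sum_mul, ← Finset.mul_sum, e5]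
      field_simp
    calc (G2.card : ℝ) ≤ _ := e1
      _ ≤ _ := e2
      _ = _ := e3
      _ ≤ _ := e4
      _ = _ := e6
  -- together
  have b3 : (G.filter fun z =>
      Tch L (W ++ S) (SA.q z.1.1 z.1.2) (SB.q z.2.1 z.2.2)) ⊆ G1 ∪ G2 := by
    intro z hz
    have h1 := Finset.mem_filter.mp hz
    rw [Finset.mem_union]
    by_cases h2 : t * (dA z.1 * dB z.2) < G.card
    · exact Or.inl (Finset.mem_filter.mpr ⟨h1.1, h2⟩)
    · exact Or.inr (Finset.mem_filter.mpr ⟨Finset.mem_filter.mpr ⟨h1.1, h2⟩, h1.2⟩)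
  have b4 : ((G.filter fun z =>
      Tch L (W ++ S) (SA.q z.1.1 z.1.2) (SB.q z.2.1 z.2.2)).card : ℝ) ≤ G1.card + G2.card := by
    exact_mod_cast (Finset.card_le_card b3).trans (Finset.card_union_le _ _)
  rw [add_mul]
  linarith

end Pool.Agent.LinOT
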