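import Pool.Agent.Lib.MP_ae38e0_lc.Any.Defs

set_option autoImplicit false

/-!
# Signs of the potentials
-/

namespace Pool.Agent.LinOT

open Classical

variable {K : Type} [Field K] {Q M X Y RA RB StA StB σ : Type}

variable (L : Submodule K (Q → K)) [Fintype L] [Fintype RA] [Fintype RB]

theorem nr_nn (SA : Side Q K StA RA) (SB : Side Q K StB RB) (kn : List (Q × K)) :
    0 ≤ nr L SA SB kn := Nat.cast_nonneg _

theorem rho_nn (SA : Side Q K StA RA) (SB : Side Q K StB RB) (kn : List (Q × K)) :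
    0 ≤ rho L SA SB kn := Nat.cast_nonneg _

theorem rho_le (SA : Side Q K StA RA) (SB : Side Q K StB RB) (kn : List (Q × K)) :
    rho L SA SB kn ≤ nr L SA SB kn := by
  unfold rho nr gr
  exact_mod_cast Finset.card_filter_le _ _

theorem qpot_nn (n : ℕ) (SA : Side Q K StA RA) (SB : Side Q K StB RB) (kn : List (Q × K))
    (hnA : ∀ (r : RA) (O : L), (SA.q r O).length ≤ n)
    (hnB : ∀ (r : RB) (O : L), (SB.q r O).length ≤ n) : 0 ≤ qpot L n SA SB kn := by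
  unfold qpot
  refine Finset.sum_nonneg fun w _ => ?_
  have h1 : (((SA.q w.1 w.2.2).length : ℕ) : ℝ) ≤ n := by exact_mod_cast hnA w.1 w.2.2
  have h2 : (((SB.q w.2.1 w.2.2).length : ℕ) : ℝ) ≤ n := by exact_mod_cast hnB w.2.1 w.2.2
  linarith

theorem pot_nn (n : ℕ) (SA : Side Q K StA RA) (SB : Side Q K StB RB) (kn : List (Q × K))
    (hnA : ∀ (r : RA) (O : L), (SA.q r O).length ≤ n)
    (hnB : ∀ (r : RB) (O : L), (SB.q r O).length ≤ n) : 0 ≤ pot L n SA SB kn := by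
  unfold pot
  refine Finset.sum_nonneg fun w _ => ?_
  have h1 : (((SA.q w.1 w.2.2).length : ℕ) : ℝ) ≤ n := by exact_mod_cast hnA w.1 w.2.2
  have h2 : (((SB.q w.2.1 w.2.2).length : ℕ) : ℝ) ≤ n := by exact_mod_cast hnB w.2.1 w.2.2
  have h3 : (0 : ℝ) ≤ (rk L (SA.q w.1 w.2.2) (kn.map Prod.fst) : ℝ) := Nat.cast_nonneg _
  have h4 : (0 : ℝ) ≤ (rk L (SB.q w.2.1 w.2.2) (kn.map Prod.fst) : ℝ) := Nat.cast_nonneg _
  linarith

theorem pot_le (n : ℕ) (SA : Side Q K StA RA) (SB : Side Q K StB RB) (kn : List (Q × K)) :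
    pot L n SA SB kn ≤ 2 * n * nr L SA SB kn := by
  unfold pot nr
  have : ∀ w ∈ cs L orc (real L SA SB) kn,
      (2 * (n : ℝ) - ((SA.q w.1 w.2.2).length : ℝ) - ((SB.q w.2.1 w.2.2).length : ℝ) +
      (rk L (SA.q w.1 w.2.2) (kn.map Prod.fst) : ℝ) +
      (rk L (SB.q w.2.1 w.2.2) (kn.map Prod.fst) : ℝ)) ≤ 2 * n := by
    intro w _
    have h1 : (rk L (SA.q w.1 w.2.2) (kn.map Prod.fst) : ℝ) ≤ (SA.q w.1 w.2.2).length := by
      exact_mod_cast rk_le L _ _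
    have h2 : (rk L (SB.q w.2.1 w.2.2) (kn.map Prod.fst) : ℝ) ≤ (SB.q w.2.1 w.2.2).length := by
      exact_mod_cast rk_le L _ _
    linarith
  have h1 := Finset.sum_le_card_nsmul _ _ _ this
  rw [nsmul_eq_mul] at h1
  exact h1.trans (le_of_eq (mul_comm _ _))

theorem qpot_le (n : ℕ) (SA : Side Q K StA RA) (SB : Side Q K StB RB) (kn : List (Q × K)) :
    qpot L n SA SB kn ≤ 2 * n * nr L SA SB kn := by
  unfold qpot nr
  have : ∀ w ∈ cs L orc (real L SA SB) kn,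
      (2 * (n : ℝ) - ((SA.q w.1 w.2.2).length : ℝ) - ((SB.q w.2.1 w.2.2).length : ℝ)) ≤
        2 * n := by
    intro w _
    have h1 : (0 : ℝ) ≤ ((SA.q w.1 w.2.2).length : ℝ) := Nat.cast_nonneg _
    have h2 : (0 : ℝ) ≤ ((SB.q w.2.1 w.2.2).length : ℝ) := Nat.cast_nonneg _
    linarith
  have h1 := Finset.sum_le_card_nsmul _ _ _ this
  rw [nsmul_eq_mul] at h1
  exact h1.trans (le_of_eq (mul_comm _ _))

end Pool.Agent.LinOT
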