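import Pool.Agent.Lib.MP_ae38e0_lc.Any.Phase
import Pool.Agent.Lib.MP_ae38e0_lc.Any.Asked
import Pool.Agent.Lib.MP_ae38e0_lc.Any.FineStep
import Pool.Agent.Lib.MP_ae38e0_lc.Any.Leaf
import Pool.Agent.Lib.MP_ae38e0_lc.Any.Small

set_option autoImplicit false

/-!
# The attack on protocols with any number of rounds
-/

namespace Pool.Agent.LinOT

open Classical

variable {K : Type} [Field K] {Q M X Y RA RB StA StB σ : Type}

variable (L : Submodule K (Q → K)) [Fintype L] [Fintype RA] [Fintype RB]

/-- **The attack, for sides.** -/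
theorem attack_any [Nonempty σ] (A : Party Q K M X) (B : Party Q K M Y)
    (outA : RA → A.St → Option σ) (outB : RB → B.St → σ) (n nA nB h1 h2 : ℕ)
    (hab : nA ≤ n ∧ nB ≤ n) (t : ℝ) (ht : 0 < t) (hn0 : 0 < n) (h4 : 4 * n ≤ h1) (h12 : 2 * h1 ≤ h2) (β : ℝ)
    (hβ : t * n / h2 + ((nA + nB).choose nA : ℕ) / t ≤ β) :
    ∀ (i : ℕ) (SA : Side Q K A.St RA) (SB : Side Q K B.St RB) (j : ℕ) (kn : List (Q × K)) (m : M),
      SA.Loc → SB.Loc →
      (∀ (ra : RA) (O : L) (l : List (M × M)), l.length ≤ i →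
        (SA.q ra O ++ A.asked O (SA.s ra O) l).length ≤ nA) →
      (∀ (rb : RB) (O : L) (l : List (M × M)), l.length ≤ i →
        (SB.q rb O ++ B.asked O (SB.s rb O) l).length ≤ nB) →
      Fine L n h1 ((n : ℝ) / h1) β SA SB j kn (∑ w ∈ cs L orc (real L SA SB) kn,
        payR L A B outA outB h1 h2 (2 * n * h2) i SA SB j kn m w) := by
  have hη : 0 ≤ (n : ℝ) / h1 := by positivity
  have hβ0 : 0 ≤ β := le_trans (by positivity) hβ
  intro i
  induction i with
  | zero =>
    intro SA SB j kn m hA hB hqA hqB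
    have hmA : ∀ (r : RA) (O : L), (SA.q r O).length ≤ nA := fun r O => by
      simpa [Party.asked] using hqA r O [] le_rfl
    have hmB : ∀ (r : RB) (O : L), (SB.q r O).length ≤ nB := fun r O => by
      simpa [Party.asked] using hqB r O [] le_rfl
    have hnA : ∀ (r : RA) (O : L), (SA.q r O).length ≤ n := fun r O => (hmA r O).trans hab.1
    have hnB : ∀ (r : RB) (O : L), (SB.q r O).length ≤ n := fun r O => (hmB r O).trans hab.2
    have hph := phaseB L n nA nB h1 h2 hab t ht hn0 h4 h12 ((n : ℝ) / h1) β hη hβ SA SB hA hB hmA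
      hmB
      (fun x w => (if guess L SB outB x.1 = outB w.2.1 (SB.s w.2.1 w.2.2) then (1 : ℝ) else 0) -
          (if outA w.1 (SA.s w.1 w.2.2) = some (outB w.2.1 (SB.s w.2.1 w.2.2)) then (1 : ℝ)
            else 0)) (fun _ _ => neg_one_le_ite _ _) ?_ j kn
    · simp only [payR, eveR, exec, Comp.run_bind, Comp.run_ret]
      exact hph
    · intro kn j hs
      have hl := leaf_shut L n h1 SA SB hA hB outA outB kn hs h4 hn0 hnA hnB
      have hq := qpot_nn L n SA SB kn hnA hnB
      have hp := pot_nn L n SA SB kn hnA hnB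
      have hr := rho_le L SA SB kn
      have hn' : 0 ≤ nr L SA SB kn := Nat.cast_nonneg _
      refine ⟨0, le_rfl, hn', ?_, ?_⟩
      · rw [mul_zero]
        positivity
      · unfold bnd
        have e1 : 0 ≤ 8 * ((n : ℝ) / h1) * qpot L n SA SB kn := by positivity
        have e2 : 0 ≤ 2 * β * j * nr L SA SB kn := by positivity
        linarith
  | succ i ih =>
    intro SA SB j kn m hA hB hqA hqB
    have hmA : ∀ (r : RA) (O : L), (SA.q r O).length ≤ nA := fun r O => by
      simpa [Party.asked] using hqA r O [] (Nat.zero_le _)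
    have hmB : ∀ (r : RB) (O : L), (SB.q r O).length ≤ nB := fun r O => by
      simpa [Party.asked] using hqB r O [] (Nat.zero_le _)
    have hnB : ∀ (r : RB) (O : L), (SB.q r O).length ≤ n := fun r O => (hmB r O).trans hab.2
    have hsA' : ∀ (r : RA) (O : L),
        (SA.q r O ++ (A.step (SA.s r O) m).asked (O : Q → K)).length ≤ nA := fun r O => by
      simpa [Party.asked] using hqA r O [(m, m)] (by simp)
    have hsA : ∀ (r : RA) (O : L),
        (SA.q r O ++ (A.step (SA.s r O) m).asked (O : Q → K)).length ≤ n :=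
      fun r O => (hsA' r O).trans hab.1
    have hsB : ∀ (a : M) (r : RB) (O : L),
        (SB.q r O ++ (B.step (SB.s r O) a).asked (O : Q → K)).length ≤ n := fun a r O => by
      refine le_trans ?_ hab.2
      simpa [Party.asked] using hqB r O [(a, m)] (by simp)
    have hA1 : ∀ a, (SA.next A m a).Loc := fun a => next_loc A SA hA m a
    have hB1 : ∀ a b, (SB.next B a b).Loc := fun a b => next_loc B SB hB a b
    -- the payoff after the second closing phase
    set G2 : M → List (Q × K) × ℕ → RA × RB × L → ℝ := fun a y w =>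
      payR L A B outA outB h1 h2 (2 * n * h2) i (SA.next A m a)
        (SB.next B a ((B.step (SB.s w.2.1 w.2.2) a).run (w.2.2 : Q → K)).2) y.2 y.1
        ((B.step (SB.s w.2.1 w.2.2) a).run (w.2.2 : Q → K)).2 w with hG2
    -- the payoff after the first closing phase
    set G1 : List (Q × K) × ℕ → RA × RB × L → ℝ := fun x w =>
      G2 ((A.step (SA.s w.1 w.2.2) m).run (w.2.2 : Q → K)).2
        ((closeB L h1 h2 (2 * n * h2)
          (SA.next A m ((A.step (SA.s w.1 w.2.2) m).run (w.2.2 : Q → K)).2) SB x.2 x.1).run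
            (w.2.2 : Q → K)) w with hG1
    have hG2m : ∀ a x w, -1 ≤ G2 a x w := fun a x w => by
      simp only [hG2, payR]
      exact neg_one_le_ite _ _
    have hG1m : ∀ x w, -1 ≤ G1 x w := fun x w => hG2m _ _ _
    have hpay : ∀ w, payR L A B outA outB h1 h2 (2 * n * h2) (i + 1) SA SB j kn m w =
        G1 ((closeB L h1 h2 (2 * n * h2) SA SB j kn).run (w.2.2 : Q → K)) w := by
      intro w
      simp only [hG1, hG2, payR, exec, eveR, Comp.run_bind]
      rfl
    simp only [hpay]
    refine phaseB L n nA nB h1 h2 hab t ht hn0 h4 h12 ((n : ℝ) / h1) β hη hβ SA SB hA hB hmA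
      hmB
      G1 hG1m ?_ j kn
    intro kn1 j1 hs1
    rw [← sum_stepA L A SA SB kn1 m]
    refine fine_stepA L n h1 β A SA SB hA hB j1 kn1 m hs1 h4 hn0 hsA hnB _ ?_
    intro a
    have e1 : ∑ w ∈ cs L orc (real L (SA.next A m a) SB) kn1, G1 (kn1, j1) w =
        ∑ w ∈ cs L orc (real L (SA.next A m a) SB) kn1,
          G2 a ((closeB L h1 h2 (2 * n * h2) (SA.next A m a) SB j1 kn1).run (w.2.2 : Q → K)) w := by
      refine Finset.sum_congr rfl fun w hw => ?_
      have hw1 := ((mem_cs L).mp hw).1.1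
      have hrep : ((A.step (SA.s w.1 w.2.2) m).run (w.2.2 : Q → K)).2 = a := hw1.2
      simp only [hG1, hrep]
    rw [e1]
    refine phaseB L n nA nB h1 h2 hab t ht hn0 h4 h12 ((n : ℝ) / h1) β hη hβ (SA.next A m a) SB
      (hA1 a) hB (fun r O => hsA' r O) hmB (G2 a) (hG2m a) ?_ j1 kn1
    intro kn2 j2 hs2
    rw [← sum_stepB L B (SA.next A m a) SB kn2 a]
    refine fine_stepB L n h1 β B (SA.next A m a) SB (hA1 a) hB j2 kn2 a hs2 h4 hn0
      (fun r O => hsA r O) (hsB a) _ ?_
    intro b
    have e2 : ∑ w ∈ cs L orc (real L (SA.next A m a) (SB.next B a b)) kn2, G2 a (kn2, j2) w =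
        ∑ w ∈ cs L orc (real L (SA.next A m a) (SB.next B a b)) kn2,
          payR L A B outA outB h1 h2 (2 * n * h2) i (SA.next A m a) (SB.next B a b) j2 kn2 b w := by
      refine Finset.sum_congr rfl fun w hw => ?_
      have hw1 := ((mem_cs L).mp hw).1.2
      have hrep : ((B.step (SB.s w.2.1 w.2.2) a).run (w.2.2 : Q → K)).2 = b := hw1.2
      simp only [hG2, hrep]
    rw [e2]
    refine ih (SA.next A m a) (SB.next B a b) j2 kn2 b (hA1 a) (hB1 a b) ?_ ?_
    · intro ra O l hl
      have := hqA ra O ((m, a) :: l) (by simpa using hl)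
      simpa [Party.asked, Side.next, add_assoc] using this
    · intro rb O l hl
      have := hqB rb O ((a, b) :: l) (by simpa using hl)
      simpa [Party.asked, Side.next, add_assoc] using this

end Pool.Agent.LinOT
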