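import Pool.Agent.Lib.MP_ae38e0_lc.Any.AnyOT
import Pool.Agent.Lib.MP_ae38e0_lc.RoundNum

set_option autoImplicit false

/-!
# The barrier for any number of rounds
-/

namespace Pool.Agent.LinOT

/-- One-wayness against `q` queries, in powers of two. -/
theorem oneway_two {K : Type} [Field K] [Fintype K] (k q : ℕ)
    (I : (Fin (3 * k) → K) → Comp (Fin (2 ^ k) × Fin (3 * k) → K) K (Fin (2 ^ k)))
    (hq : ∀ y O, ((I y).asked O).length ≤ q) :
    prob (fun p : (Fin (2 ^ k) → Fin (3 * k) → K) × Fin (2 ^ k) =>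
      p.1 ((I (p.1 p.2)).run (lin p.1)) = p.1 p.2) ≤ ((q : ℝ) + 2) / 2 ^ k := by
  have : Nonempty (Fin (2 ^ k)) := ⟨⟨0, by positivity⟩⟩
  refine (oneway_prob _ I hq).trans ?_
  have hK : (2 : ℝ) ≤ Fintype.card K := by exact_mod_cast Fintype.one_lt_card
  rw [Fintype.card_fin]
  push_cast
  have h3 : (2 : ℝ) ^ k / (Fintype.card K : ℝ) ^ (3 * k) ≤ 1 / 2 ^ k := by
    rw [div_le_div_iff₀ (by positivity) (by positivity)]
    calc (2 : ℝ) ^ k * 2 ^ k = 2 ^ (2 * k) := by rw [← pow_add]; ring_nf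
      _ ≤ 2 ^ (3 * k) := pow_le_pow_right₀ (by norm_num) (by omega)
      _ ≤ (Fintype.card K : ℝ) ^ (3 * k) := by gcongr
      _ = 1 * (Fintype.card K : ℝ) ^ (3 * k) := by ring
  calc ((q : ℝ) + 1) / 2 ^ k + 2 ^ k / (Fintype.card K : ℝ) ^ (3 * k)
      ≤ ((q : ℝ) + 1) / 2 ^ k + 1 / 2 ^ k := by linarith
    _ = ((q : ℝ) + 2) / 2 ^ k := by ring

/-- **The barrier for any number of rounds.** -/
theorem any_barrier (K M : Type) [Field K] [Fintype K] (k N n nR nS h : ℕ)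
    (L : Submodule K ((Fin (2 ^ k) × Fin (3 * k) → K) → K))
    (R : Party (Fin (2 ^ k) × Fin (3 * k) → K) K M Bool)
    (S : Party (Fin (2 ^ k) × Fin (3 * k) → K) K M (Bool × Bool)) [Fintype R.Tape]
    [Fintype S.Tape] [Nonempty R.Tape] [Nonempty S.Tape] (out : R.St → Option Bool) (m0 : M)
    (hab : nR ≤ n ∧ nS ≤ n) (hn : 0 < n) (hh : 0 < h)
    (hR : limited L R false N nR) (hS : ∀ b, limited L S b N nS)
    (δ : ℝ) (b1 : Bool)
    (hδ : ∀ b0, err L R S out N m0 false b0 b1 ≤ δ) :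
    ∃ E : List (M × M) → Comp (Fin (2 ^ k) × Fin (3 * k) → K) K Bool,
      (∀ t O, ((E t).asked O).length ≤ 1024 * n ^ 11 * (nR + nS).choose nR * h ^ 8) ∧
      1 - 2 * δ - 50 / h ≤ advSum L R S N m0 E b1 ∧
      ∀ (q : ℕ) (I : (Fin (3 * k) → K) →
          Comp ((Fin (2 ^ k) × Fin (3 * k) → K) ⊕ List (M × M)) (K ⊕ Bool) (Fin (2 ^ k))),
        (∀ y O, ((I y).asked (withAdv O E)).length ≤ q) →
        prob (fun p : (Fin (2 ^ k) → Fin (3 * k) → K) × Fin (2 ^ k) =>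
          p.1 ((I (p.1 p.2)).run (withAdv (lin p.1) E)) = p.1 p.2) ≤
            (1024 * (n : ℝ) ^ 11 * (nR + nS).choose nR * (h : ℝ) ^ 8 * q + 2) / 2 ^ k := by
  have : Finite L := inferInstance
  obtain ⟨E, hE1, hE2⟩ := ot_any L R S out m0 N n nR nS h hab hn hh hR hS δ b1 hδ
  refine ⟨E, hE1, ?_, ?_⟩
  · refine le_trans (le_of_eq ?_) hE2
    ring
  · intro q I hI
    have h1 : 1 ≤ 1024 * n ^ 11 * (nR + nS).choose nR * h ^ 8 := by
      have : 0 < (nR + nS).choose nR := Nat.choose_pos (by omega)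
      have : 0 < 1024 * n ^ 11 * (nR + nS).choose nR * h ^ 8 := by positivity
      exact this
    have h := oneway_two (K := K) k (1024 * n ^ 11 * (nR + nS).choose nR * h ^ 8 * q)
      (fun y => (I y).sim E) (by
        intro y O
        refine (Comp.asked_sim E O _ h1 (fun t => hE1 t O) (I y)).trans ?_
        exact Nat.mul_le_mul_left _ (hI y O))
    simp only [Comp.run_sim] at h
    push_cast at h
    exact h

end Pool.Agent.LinOT
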