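import Pool.Agent.Lib.MP_ae38e0_lc.Any.Learn

set_option autoImplicit false

/-!
# The learning phase
-/

namespace Pool.Agent.LinOT

open Classical

variable {K : Type} [Field K] {Q M X Y RA RB StA StB σ : Type}

variable (L : Submodule K (Q → K)) [Fintype L] [Fintype RA] [Fintype RB]

theorem phB_nr (SA : Side Q K StA RA) (SB : Side Q K StB RB) (kn : List (Q × K)) :
    0 ≤ nr L SA SB kn := Nat.cast_nonneg _

theorem phB_rho (SA : Side Q K StA RA) (SB : Side Q K StB RB) (kn : List (Q × K)) :
    rho L SA SB kn ≤ nr L SA SB kn := by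
  unfold rho nr gr
  exact_mod_cast Finset.card_le_card (Finset.filter_subset _ _)

theorem phB_qpot (n : ℕ) (SA : Side Q K StA RA) (SB : Side Q K StB RB)
    (hnA : ∀ (r : RA) (O : L), (SA.q r O).length ≤ n)
    (hnB : ∀ (r : RB) (O : L), (SB.q r O).length ≤ n) (kn : List (Q × K)) :
    0 ≤ qpot L n SA SB kn := by
  unfold qpot
  refine Finset.sum_nonneg fun w _ => ?_
  have h1 : ((SA.q w.1 w.2.2).length : ℝ) ≤ n := by exact_mod_cast hnA w.1 w.2.2
  have h2 : ((SB.q w.2.1 w.2.2).length : ℝ) ≤ n := by exact_mod_cast hnB w.2.1 w.2.2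
  linarith

theorem phB_pot (n : ℕ) (SA : Side Q K StA RA) (SB : Side Q K StB RB)
    (hnA : ∀ (r : RA) (O : L), (SA.q r O).length ≤ n)
    (hnB : ∀ (r : RB) (O : L), (SB.q r O).length ≤ n) (kn : List (Q × K)) :
    0 ≤ pot L n SA SB kn := by
  unfold pot
  refine Finset.sum_nonneg fun w _ => ?_
  have h1 : ((SA.q w.1 w.2.2).length : ℝ) ≤ n := by exact_mod_cast hnA w.1 w.2.2
  have h2 : ((SB.q w.2.1 w.2.2).length : ℝ) ≤ n := by exact_mod_cast hnB w.2.1 w.2.2
  have h3 : (0 : ℝ) ≤ (rk L (SA.q w.1 w.2.2) (kn.map Prod.fst) : ℝ) := Nat.cast_nonneg _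
  have h4 : (0 : ℝ) ≤ (rk L (SB.q w.2.1 w.2.2) (kn.map Prod.fst) : ℝ) := Nat.cast_nonneg _
  linarith

theorem phB_bnd (n : ℕ) (η β : ℝ) (hη : 0 ≤ η) (hβ0 : 0 ≤ β) (SA : Side Q K StA RA)
    (SB : Side Q K StB RB)
    (hnA : ∀ (r : RA) (O : L), (SA.q r O).length ≤ n)
    (hnB : ∀ (r : RB) (O : L), (SB.q r O).length ≤ n) (j : ℕ) (kn : List (Q × K)) :
    2 * (nr L SA SB kn - rho L SA SB kn) ≤ bnd L n η β SA SB j kn := by
  unfold bnd
  have h1 := phB_nr L SA SB kn
  have h2 := phB_qpot L n SA SB hnA hnB kn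
  have h3 : 0 ≤ 4 * η * nr L SA SB kn := by positivity
  have h4 : 0 ≤ 8 * η * qpot L n SA SB kn := by positivity
  have h5 : 0 ≤ 2 * β * j * nr L SA SB kn := by positivity
  linarith

/-- The learning phase. -/
theorem phaseB (n a b h1 h2 : ℕ) (hab : a ≤ n ∧ b ≤ n) (t : ℝ) (ht : 0 < t) (hn0 : 0 < n) (h4 : 4 * n ≤ h1)
    (h12 : 2 * h1 ≤ h2) (η β : ℝ) (hη : 0 ≤ η)
    (hβ : t * n / h2 + ((a + b).choose a : ℕ) / t ≤ β)
    (SA : Side Q K StA RA) (SB : Side Q K StB RB) (hA : SA.Loc) (hB : SB.Loc)
    (hmA : ∀ (r : RA) (O : L), (SA.q r O).length ≤ a)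
    (hmB : ∀ (r : RB) (O : L), (SB.q r O).length ≤ b)
    (G : List (Q × K) × ℕ → RA × RB × L → ℝ) (hG : ∀ x w, -1 ≤ G x w)
    (hyp : ∀ (kn : List (Q × K)) (j : ℕ), Shut L h1 SA SB kn →
      Fine L n h1 η β SA SB j kn (∑ w ∈ cs L orc (real L SA SB) kn, G (kn, j) w)) :
    ∀ (j : ℕ) (kn : List (Q × K)),
      Fine L n h1 η β SA SB j kn (∑ w ∈ cs L orc (real L SA SB) kn,
        G ((closeB L h1 h2 (2 * n * h2) SA SB j kn).run (w.2.2 : Q → K)) w) := by
  have hβ0 : 0 ≤ β := by
    refine le_trans ?_ hβ
    positivity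
  have hnA : ∀ (r : RA) (O : L), (SA.q r O).length ≤ n := fun r O => (hmA r O).trans hab.1
  have hnB : ∀ (r : RB) (O : L), (SB.q r O).length ≤ n := fun r O => (hmB r O).trans hab.2
  have hh1 : 0 < h1 := by omega
  have hh2 : 0 < h2 := by omega
  have hlow : ∀ (kn : List (Q × K)) (F : RA × RB × L → ℝ), (∀ w, -1 ≤ F w) →
      -(∑ w ∈ cs L orc (real L SA SB) kn, F w) ≤ nr L SA SB kn := by
    intro kn F hF
    have h1 := Finset.card_nsmul_le_sum (cs L orc (real L SA SB) kn) F (-1) (fun w _ => hF w)
    rw [nsmul_eq_mul] at h1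
    unfold nr
    linarith
  intro j
  induction j with
  | zero =>
    intro kn
    by_cases hS : Shut L h1 SA SB kn
    · simpa only [closeB, Comp.run_ret] using hyp kn 0 hS
    · refine ⟨nr L SA SB kn, phB_nr L SA SB kn, le_refl _, ?_, ?_⟩
      · have := phB_pot L n SA SB hnA hnB kn
        simp only [CharP.cast_eq_zero, zero_mul]
        positivity
      · have h1 := hlow kn (fun w => G ((closeB L h1 h2 (2 * n * h2) SA SB 0 kn).run
          (w.2.2 : Q → K)) w) (fun w => hG _ _)
        have h2 := phB_bnd L n η β hη hβ0 SA SB hnA hnB 0 kn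
        have h3 := phB_rho L SA SB kn
        linarith
  | succ j ih =>
    intro kn
    by_cases hc : (¬ Shut L h1 SA SB kn ∧ nr L SA SB kn ≤ 2 * rho L SA SB kn) ∧
        ∃ S : List Q, Best L h2 (2 * n * h2) SA SB kn S
    · have hrun : ∀ O : Q → K, (closeB L h1 h2 (2 * n * h2) SA SB (j + 1) kn).run O =
          (closeB L h1 h2 (2 * n * h2) SA SB j
            (kn ++ hc.2.choose.zip (hc.2.choose.map O))).run O := by
        intro O
        conv_lhs => unfold closeB
        rw [dif_pos hc]
        simp only [Comp.run_bind, Comp.run_askAll]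
      have hbest := hc.2.choose_spec
      set S := hc.2.choose with hSdef
      have hpot := learn_pot L n h1 h2 (2 * n * h2) SA SB hA hB kn S hbest h12 hh1 hc.1.1 hc.1.2
      have hrho := learn_rho L n a b h2 (2 * n * h2) hab SA SB hA hB kn S hbest hh2 hmA hmB t ht
      have hnr := learn_nr L SA SB kn S
      have hqp := learn_qpot L n SA SB kn S
      choose u hu0 hu1 hu2 hu3 using fun c : List K => ih (kn ++ S.zip c)
      refine ⟨∑ c ∈ answers L S, u c, Finset.sum_nonneg fun c _ => hu0 c, ?_, ?_, ?_⟩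
      · rw [← hnr]
        exact Finset.sum_le_sum fun c _ => hu1 c
      · have h5 : (j : ℝ) * ∑ c ∈ answers L S, u c ≤
            4 * (h1 : ℝ) * ∑ c ∈ answers L S, pot L n SA SB (kn ++ S.zip c) := by
          rw [Finset.mul_sum, Finset.mul_sum]
          exact Finset.sum_le_sum fun c _ => hu2 c
        have h6 : ∑ c ∈ answers L S, u c ≤ nr L SA SB kn := by
          rw [← hnr]
          exact Finset.sum_le_sum fun c _ => hu1 c
        push_cast
        rw [add_mul, one_mul]
        linarith
      · have e1 : ∑ w ∈ cs L orc (real L SA SB) kn,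
              G ((closeB L h1 h2 (2 * n * h2) SA SB (j + 1) kn).run (w.2.2 : Q → K)) w =
              ∑ c ∈ answers L S, ∑ w ∈ cs L orc (real L SA SB) (kn ++ S.zip c),
                G ((closeB L h1 h2 (2 * n * h2) SA SB j (kn ++ S.zip c)).run
                  (w.2.2 : Q → K)) w := by
          rw [← sum_answers L orc (real L SA SB) kn S]
          refine Finset.sum_congr rfl fun c hc1 => ?_
          refine Finset.sum_congr rfl fun w hw => ?_
          rw [hrun]
          have : S.map (w.2.2 : Q → K) = c := by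
            have h1 := (Finset.mem_filter.mp hw).2.2
            rw [cons_append] at h1
            exact (cons_zip _ S c (answers_length L hc1)).mp h1.2
          rw [this]
        rw [e1, ← Finset.sum_neg_distrib]
        refine (Finset.sum_le_sum fun c _ => hu3 c).trans ?_
        rw [Finset.sum_add_distrib]
        have h7 : ∑ c ∈ answers L S, bnd L n η β SA SB j (kn ++ S.zip c) =
            2 * (nr L SA SB kn - ∑ c ∈ answers L S, rho L SA SB (kn ++ S.zip c)) +
              4 * η * nr L SA SB kn + 8 * η * qpot L n SA SB kn +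
              2 * β * j * nr L SA SB kn := by
          unfold bnd
          rw [Finset.sum_add_distrib, Finset.sum_add_distrib, Finset.sum_add_distrib,
            ← Finset.mul_sum, ← Finset.mul_sum, ← Finset.mul_sum, ← Finset.mul_sum,
            Finset.sum_sub_distrib, hnr, hqp]
        rw [h7]
        have h8 : (t * n / h2 + ((a + b).choose a : ℕ) / t) * nr L SA SB kn ≤
            β * nr L SA SB kn := mul_le_mul_of_nonneg_right hβ (phB_nr L SA SB kn)
        have h9 : bnd L n η β SA SB (j + 1) kn =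
            2 * (nr L SA SB kn - rho L SA SB kn) + 4 * η * nr L SA SB kn +
              8 * η * qpot L n SA SB kn + 2 * β * j * nr L SA SB kn +
              2 * (β * nr L SA SB kn) := by
          unfold bnd
          push_cast
          ring
        rw [h9]
        linarith
    · have hret : closeB L h1 h2 (2 * n * h2) SA SB (j + 1) kn = .ret (kn, j + 1) := by
        conv_lhs => unfold closeB
        rw [dif_neg hc]
      by_cases hS : Shut L h1 SA SB kn
      · simpa only [hret, Comp.run_ret] using hyp kn (j + 1) hS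
      · by_cases hr : nr L SA SB kn ≤ 2 * rho L SA SB kn
        · exfalso
          rcases Nat.eq_zero_or_pos (gp L SA SB kn).card with h0 | h0
          · apply hS
            intro T
            have : gain L SA SB kn T = 0 := by
              unfold gain
              rw [Finset.card_eq_zero.mp h0, Finset.sum_empty]
            rw [this, mul_zero]
            exact Nat.zero_le _
          · exact hc ⟨⟨hS, hr⟩, best_exists L n h2 SA SB kn hnA hnB h0⟩
        · refine ⟨0, le_refl _, phB_nr L SA SB kn, ?_, ?_⟩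
          · have := phB_pot L n SA SB hnA hnB kn
            rw [mul_zero]
            positivity
          · have h1 := hlow kn (fun w => G ((closeB L h1 h2 (2 * n * h2) SA SB (j + 1) kn).run
              (w.2.2 : Q → K)) w) (fun w => hG _ _)
            have h2 := phB_bnd L n η β hη hβ0 SA SB hnA hnB (j + 1) kn
            have h3 := not_le.mp hr
            linarith

end Pool.Agent.LinOT
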