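import Pool.Agent.Lib.MP_ae38e0_lc.Any.Defs

set_option autoImplicit false

/-!
# Shut states
-/

namespace Pool.Agent.LinOT

open Classical

variable {K : Type} [Field K] {Q M X Y RA RB StA StB σ : Type}

variable (L : Submodule K (Q → K)) [Fintype L] [Fintype RA] [Fintype RB]

/-- The number of parties `B` which are not touched by `p`. -/
noncomputable def dgA (SA : Side Q K StA RA) (SB : Side Q K StB RB) (kn : List (Q × K))
    (p : RA × L) : ℕ :=
  ((supp L SB kn).filter fun p' =>
      ¬ Tch L (kn.map Prod.fst) (SA.q p.1 p.2) (SB.q p'.1 p'.2)).card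

/-- The number of parties `A` which are not touched by `p'`. -/
noncomputable def dgB (SA : Side Q K StA RA) (SB : Side Q K StB RB) (kn : List (Q × K))
    (p' : RB × L) : ℕ :=
  ((supp L SA kn).filter fun p =>
      ¬ Tch L (kn.map Prod.fst) (SA.q p.1 p.2) (SB.q p'.1 p'.2)).card

theorem gp_eq_sumA (SA : Side Q K StA RA) (SB : Side Q K StB RB) (kn : List (Q × K)) :
    (gp L SA SB kn).card = ∑ p ∈ supp L SA kn, dgA L SA SB kn p := by
  unfold gp dgA
  rw [Finset.card_filter, Finset.sum_product]
  refine Finset.sum_congr rfl fun p _ => ?_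
  rw [Finset.card_filter]

/-- The gain is at least the number of good pairs whose party `B` is touched. -/
theorem gain_geB (SA : Side Q K StA RA) (SB : Side Q K StB RB) (kn : List (Q × K))
    (T : List Q) :
    ∑ p' ∈ tset L SB kn T, dgB L SA SB kn p' ≤ gain L SA SB kn T := by
  unfold gain gp tset dgB
  rw [Finset.sum_filter, Finset.sum_filter, Finset.sum_product_right]
  refine Finset.sum_le_sum fun p' _ => ?_
  split_ifs with hT
  · rw [Finset.card_filter]
    refine Finset.sum_le_sum fun p _ => ?_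
    have := rk_tch L hT
    dsimp only
    split_ifs
    · omega
    · omega
  · exact Nat.zero_le _

/-- The gain is at least the number of good pairs whose party `A` is touched. -/
theorem gain_geA (SA : Side Q K StA RA) (SB : Side Q K StB RB) (kn : List (Q × K))
    (T : List Q) :
    ∑ p ∈ tset L SA kn T, dgA L SA SB kn p ≤ gain L SA SB kn T := by
  unfold gain gp tset dgA
  rw [Finset.sum_filter, Finset.sum_filter, Finset.sum_product]
  refine Finset.sum_le_sum fun p _ => ?_
  split_ifs with hT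
  · rw [Finset.card_filter]
    refine Finset.sum_le_sum fun p' _ => ?_
    have := rk_tch L hT
    dsimp only
    split_ifs
    · omega
    · omega
  · exact Nat.zero_le _

/-- Every party `B` is untouched by many parties `A`. -/
theorem dgB_ge (n h1 : ℕ) (SA : Side Q K StA RA) (SB : Side Q K StB RB) (kn : List (Q × K))
    (hs : Shut L h1 SA SB kn)
    (hnB : ∀ (r : RB) (O : L), (SB.q r O).length ≤ n) (p' : RB × L) :
    h1 * (gp L SA SB kn).card ≤ n * (gp L SA SB kn).card +
      h1 * ((supp L SB kn).card * dgB L SA SB kn p') := by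
  have h1' := hs (SB.q p'.1 p'.2)
  have h2 := gain_geA L SA SB kn (SB.q p'.1 p'.2)
  have h3 : (gp L SA SB kn).card ≤ ∑ p ∈ tset L SA kn (SB.q p'.1 p'.2), dgA L SA SB kn p +
      (supp L SB kn).card * dgB L SA SB kn p' := by
    rw [gp_eq_sumA, ← Finset.sum_filter_add_sum_filter_not (supp L SA kn)
      (fun p => Tch L (kn.map Prod.fst) (SB.q p'.1 p'.2) (SA.q p.1 p.2))]
    refine Nat.add_le_add (le_of_eq rfl) ?_
    have h4 : dgB L SA SB kn p' = ((supp L SA kn).filter fun p =>
        ¬ Tch L (kn.map Prod.fst) (SB.q p'.1 p'.2) (SA.q p.1 p.2)).card := by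
      unfold dgB
      congr 1
      refine Finset.filter_congr fun p _ => ?_
      exact not_congr ⟨fun h => tch_symm L h, fun h => tch_symm L h⟩
    rw [h4, mul_comm, ← smul_eq_mul]
    apply Finset.sum_le_card_nsmul
    intro p _
    exact Finset.card_le_card (Finset.filter_subset _ _)
  calc h1 * (gp L SA SB kn).card
      ≤ h1 * (∑ p ∈ tset L SA kn (SB.q p'.1 p'.2), dgA L SA SB kn p +
      (supp L SB kn).card * dgB L SA SB kn p') := Nat.mul_le_mul_left _ h3
    _ = h1 * (∑ p ∈ tset L SA kn (SB.q p'.1 p'.2), dgA L SA SB kn p) +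
      h1 * ((supp L SB kn).card * dgB L SA SB kn p') := mul_add _ _ _
    _ ≤ h1 * gain L SA SB kn (SB.q p'.1 p'.2) +
      h1 * ((supp L SB kn).card * dgB L SA SB kn p') :=
        Nat.add_le_add_right (Nat.mul_le_mul_left _ h2) _
    _ ≤ (gp L SA SB kn).card * (SB.q p'.1 p'.2).length +
      h1 * ((supp L SB kn).card * dgB L SA SB kn p') := Nat.add_le_add_right h1' _
    _ ≤ n * (gp L SA SB kn).card +
      h1 * ((supp L SB kn).card * dgB L SA SB kn p') := by
        refine Nat.add_le_add_right ?_ _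
        rw [mul_comm n]
        exact Nat.mul_le_mul_left _ (hnB _ _)

/-- A short list touches few parties `B`. -/
theorem tset_few (n h1 : ℕ) (SA : Side Q K StA RA) (SB : Side Q K StB RB) (kn : List (Q × K))
    (hs : Shut L h1 SA SB kn) (h4 : 4 * n ≤ h1)
    (hnB : ∀ (r : RB) (O : L), (SB.q r O).length ≤ n) (h0 : 0 < (gp L SA SB kn).card)
    (T : List Q) (hT : T.length ≤ n) :
    3 * (h1 * (tset L SB kn T).card) ≤ 4 * (n * (supp L SB kn).card) := by
  set N := (gp L SA SB kn).card with hN
  set b := (supp L SB kn).card with hb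
  set t := (tset L SB kn T).card with ht
  rcases Nat.eq_zero_or_pos h1 with h5 | h5
  · simp [h5]
  have e1 : h1 * ∑ p' ∈ tset L SB kn T, dgB L SA SB kn p' ≤ N * n :=
    (Nat.mul_le_mul_left _ (gain_geB L SA SB kn T)).trans
      ((hs T).trans (Nat.mul_le_mul_left _ hT))
  have e2 : t * (h1 * N) ≤ t * (n * N) +
      h1 * (b * ∑ p' ∈ tset L SB kn T, dgB L SA SB kn p') := by
    calc t * (h1 * N) = ∑ _p' ∈ tset L SB kn T, h1 * N := by
          rw [Finset.sum_const, smul_eq_mul]
      _ ≤ ∑ p' ∈ tset L SB kn T, (n * N + h1 * (b * dgB L SA SB kn p')) :=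
          Finset.sum_le_sum fun p' _ => dgB_ge L n h1 SA SB kn hs hnB p'
      _ = t * (n * N) + h1 * (b * ∑ p' ∈ tset L SB kn T, dgB L SA SB kn p') := by
          rw [Finset.sum_add_distrib, Finset.sum_const, smul_eq_mul, Finset.mul_sum,
            Finset.mul_sum]
  have e3 : t * (h1 * N) ≤ t * (n * N) + b * (N * n) := by
    refine e2.trans (Nat.add_le_add_left ?_ _)
    calc h1 * (b * ∑ p' ∈ tset L SB kn T, dgB L SA SB kn p')
        = b * (h1 * ∑ p' ∈ tset L SB kn T, dgB L SA SB kn p') := by ring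
      _ ≤ b * (N * n) := Nat.mul_le_mul_left _ e1
  have e4 : t * h1 ≤ t * n + b * n := by
    have : N * (t * h1) ≤ N * (t * n + b * n) := by nlinarith [e3]
    exact Nat.le_of_mul_le_mul_left this h0
  nlinarith [Nat.mul_le_mul_left t h4]

/-- In a shut state a short list touches few parties. -/
theorem shut_few (n h1 : ℕ) (SA : Side Q K StA RA) (SB : Side Q K StB RB) (kn : List (Q × K))
    (hs : Shut L h1 SA SB kn) (h4 : 4 * n ≤ h1)
    (hnA : ∀ (r : RA) (O : L), (SA.q r O).length ≤ n)
    (hnB : ∀ (r : RB) (O : L), (SB.q r O).length ≤ n) (h0 : 0 < (gp L SA SB kn).card)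
    (T : List Q) (hT : T.length ≤ n) (p : RA × L) (hp : p ∈ supp L SA kn) :
    (h1 : ℝ) * (tset L SB kn T).card ≤ 4 * n * ((supp L SB kn).filter fun p' =>
      ¬ Tch L (kn.map Prod.fst) (SA.q p.1 p.2) (SB.q p'.1 p'.2)).card := by
  have e1 := tset_few L n h1 SA SB kn hs h4 hnB h0 T hT
  have e2 := tset_few L n h1 SA SB kn hs h4 hnB h0 (SA.q p.1 p.2) (hnA _ _)
  set d := ((supp L SB kn).filter fun p' =>
      ¬ Tch L (kn.map Prod.fst) (SA.q p.1 p.2) (SB.q p'.1 p'.2)).card with hd
  have e3 : (tset L SB kn (SA.q p.1 p.2)).card + d = (supp L SB kn).card := by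
    rw [hd]
    unfold tset
    exact Finset.card_filter_add_card_filter_not _
  set t1 := (tset L SB kn (SA.q p.1 p.2)).card with ht1
  set t := (tset L SB kn T).card with ht
  rw [← e3] at e1 e2
  have main : h1 * t ≤ 4 * n * d := by
    rcases Nat.eq_zero_or_pos h1 with h5 | h5
    · simp [h5]
    · -- `3 h1 t1 ≤ 4 n (t1 + d) ≤ h1 (t1 + d)`
      have e4 : h1 * (3 * t1) ≤ h1 * (t1 + d) := by
        nlinarith [Nat.mul_le_mul_right (t1 + d) h4]
      have e5 : 3 * t1 ≤ t1 + d := Nat.le_of_mul_le_mul_left e4 h5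
      have e6 : n * (2 * t1) ≤ n * d := Nat.mul_le_mul_left _ (by omega)
      nlinarith
  exact_mod_cast main

end Pool.Agent.LinOT
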