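import Pool.Agent.Lib.MP_ae38e0_lc.Any.Defs

set_option autoImplicit false

/-!
# Sums over the replies of a party
-/

namespace Pool.Agent.LinOT

open Classical

variable {K : Type} [Field K] {Q M X Y RA RB StA StB σ : Type}

/-- Appending queries raises the rank at most by their number. -/
theorem rk_append_le (L : Submodule K (Q → K)) (T T' W : List Q) :
    rk L (T ++ T') W ≤ rk L T W + T'.length := by
  unfold rk
  set V := killer L W
  set U := Submodule.map (LinearMap.funLeft K K (T ++ T').get) V with hU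
  let i1 : Fin T.length → Fin (T ++ T').length := fun i => ⟨i, by rw [List.length_append]; omega⟩
  let i2 : Fin T'.length → Fin (T ++ T').length := fun j =>
    ⟨T.length + j, by rw [List.length_append]; omega⟩
  let p1 : U →ₗ[K] (Fin T.length → K) := (LinearMap.funLeft K K i1).comp U.subtype
  have h1 : LinearMap.range p1 ≤ Submodule.map (LinearMap.funLeft K K T.get) V := by
    rintro _ ⟨⟨x, hx⟩, rfl⟩
    obtain ⟨D, hD, rfl⟩ := hx
    refine ⟨D, hD, ?_⟩
    funext i
    simp only [p1, i1, LinearMap.comp_apply, Submodule.subtype_apply, LinearMap.funLeft_apply,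
      List.get_eq_getElem]
    rw [List.getElem_append_left i.2]
  have h2 : Module.finrank K (LinearMap.ker p1) ≤ T'.length := by
    let p2 : LinearMap.ker p1 →ₗ[K] (Fin T'.length → K) :=
      ((LinearMap.funLeft K K i2).comp U.subtype).comp (LinearMap.ker p1).subtype
    have h3 : Function.Injective p2 := by
      rintro ⟨⟨x, hx⟩, hkx⟩ ⟨⟨y, hy⟩, hky⟩ h0
      have hx' : ∀ i : Fin T.length, x (i1 i) = 0 := fun i => congrFun (LinearMap.mem_ker.1 hkx) i
      have hy' : ∀ i : Fin T.length, y (i1 i) = 0 := fun i => congrFun (LinearMap.mem_ker.1 hky) i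
      have h0' : ∀ j : Fin T'.length, x (i2 j) = y (i2 j) := fun j => congrFun h0 j
      apply Subtype.ext
      apply Subtype.ext
      change x = y
      funext l
      by_cases hl : (l : ℕ) < T.length
      · exact (hx' ⟨l, hl⟩).trans (hy' ⟨l, hl⟩).symm
      · have hl2 : (l : ℕ) < T.length + T'.length := lt_of_lt_of_eq l.2 List.length_append
        have := h0' ⟨l - T.length, by omega⟩
        have e : i2 ⟨l - T.length, by omega⟩ = l := by
          apply Fin.ext
          simp only [i2]
          omega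
        rw [e] at this
        exact this
    have h4 := LinearMap.finrank_le_finrank_of_injective h3
    simpa using h4
  have h5 := LinearMap.finrank_range_add_finrank_ker p1
  have h6 := Submodule.finrank_mono h1
  omega

variable (L : Submodule K (Q → K)) [Fintype L] [Fintype RA] [Fintype RB]

/-- The sum over the replies of the first party. -/
theorem sum_stepA (A : Party Q K M X) (SA : Side Q K A.St RA) (SB : Side Q K StB RB)
    (kn : List (Q × K)) (m : M) (F : RA × RB × L → ℝ) :
    ∑ a ∈ reps L A.step SA.s m, ∑ w ∈ cs L orc (real L (SA.next A m a) SB) kn, F w =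
      ∑ w ∈ cs L orc (real L SA SB) kn, F w := by
  rw [← sum_split L orc (real L SA SB)
    (fun w : RA × RB × L => ((A.step (SA.s w.1 w.2.2) m).run (w.2.2 : Q → K)).2) kn
    (reps L A.step SA.s m)
    (fun w => Finset.mem_image.mpr ⟨(w.1, w.2.2), Finset.mem_univ _, rfl⟩) F]
  refine Finset.sum_congr rfl fun a _ => ?_
  refine Finset.sum_congr ?_ fun _ _ => rfl
  ext w
  rw [mem_cs, mem_cs]
  simp only [real, Side.next]
  tauto

/-- The sum over the replies of the second party. -/
theorem sum_stepB (B : Party Q K M Y) (SA : Side Q K StA RA) (SB : Side Q K B.St RB)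
    (kn : List (Q × K)) (m : M) (F : RA × RB × L → ℝ) :
    ∑ b ∈ reps L B.step SB.s m, ∑ w ∈ cs L orc (real L SA (SB.next B m b)) kn, F w =
      ∑ w ∈ cs L orc (real L SA SB) kn, F w := by
  rw [← sum_split L orc (real L SA SB)
    (fun w : RA × RB × L => ((B.step (SB.s w.2.1 w.2.2) m).run (w.2.2 : Q → K)).2) kn
    (reps L B.step SB.s m)
    (fun w => Finset.mem_image.mpr ⟨(w.2.1, w.2.2), Finset.mem_univ _, rfl⟩) F]
  refine Finset.sum_congr rfl fun b _ => ?_
  refine Finset.sum_congr ?_ fun _ _ => rfl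
  ext w
  rw [mem_cs, mem_cs]
  simp only [real, Side.next]
  tauto

/-- The potential does not grow in a step of the first party. -/
theorem pot_stepA (n : ℕ) (A : Party Q K M X) (SA : Side Q K A.St RA) (SB : Side Q K StB RB)
    (kn : List (Q × K)) (m : M) :
    ∑ a ∈ reps L A.step SA.s m, pot L n (SA.next A m a) SB kn ≤ pot L n SA SB kn := by
  have h := sum_stepA L A SA SB kn m (fun w =>
    (2 * (n : ℝ) - ((SA.q w.1 w.2.2 ++ (A.step (SA.s w.1 w.2.2) m).asked w.2.2).length : ℝ) -
      ((SB.q w.2.1 w.2.2).length : ℝ) +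
      (rk L (SA.q w.1 w.2.2 ++ (A.step (SA.s w.1 w.2.2) m).asked w.2.2) (kn.map Prod.fst) : ℝ) +
      (rk L (SB.q w.2.1 w.2.2) (kn.map Prod.fst) : ℝ)))
  unfold pot
  refine (le_of_eq h).trans (Finset.sum_le_sum fun w _ => ?_)
  have h2 := rk_append_le L (SA.q w.1 w.2.2) ((A.step (SA.s w.1 w.2.2) m).asked w.2.2) (kn.map Prod.fst)
  have h3 : (rk L (SA.q w.1 w.2.2 ++ (A.step (SA.s w.1 w.2.2) m).asked w.2.2) (kn.map Prod.fst) : ℝ) ≤
      (rk L (SA.q w.1 w.2.2) (kn.map Prod.fst) : ℝ) + (((A.step (SA.s w.1 w.2.2) m).asked w.2.2).length : ℝ) := by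
    exact_mod_cast h2
  rw [List.length_append]
  push_cast
  linarith

/-- The potential does not grow in a step of the second party. -/
theorem pot_stepB (n : ℕ) (B : Party Q K M Y) (SA : Side Q K StA RA) (SB : Side Q K B.St RB)
    (kn : List (Q × K)) (m : M) :
    ∑ b ∈ reps L B.step SB.s m, pot L n SA (SB.next B m b) kn ≤ pot L n SA SB kn := by
  have h := sum_stepB L B SA SB kn m (fun w =>
    (2 * (n : ℝ) - ((SA.q w.1 w.2.2).length : ℝ) -
      ((SB.q w.2.1 w.2.2 ++ (B.step (SB.s w.2.1 w.2.2) m).asked w.2.2).length : ℝ) +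
      (rk L (SA.q w.1 w.2.2) (kn.map Prod.fst) : ℝ) +
      (rk L (SB.q w.2.1 w.2.2 ++ (B.step (SB.s w.2.1 w.2.2) m).asked w.2.2) (kn.map Prod.fst) : ℝ)))
  unfold pot
  refine (le_of_eq h).trans (Finset.sum_le_sum fun w _ => ?_)
  have h2 := rk_append_le L (SB.q w.2.1 w.2.2) ((B.step (SB.s w.2.1 w.2.2) m).asked w.2.2) (kn.map Prod.fst)
  have h3 : (rk L (SB.q w.2.1 w.2.2 ++ (B.step (SB.s w.2.1 w.2.2) m).asked w.2.2) (kn.map Prod.fst) : ℝ) ≤
      (rk L (SB.q w.2.1 w.2.2) (kn.map Prod.fst) : ℝ) +
        (((B.step (SB.s w.2.1 w.2.2) m).asked w.2.2).length : ℝ) := by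
    exact_mod_cast h2
  rw [List.length_append]
  push_cast
  linarith

end Pool.Agent.LinOT
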