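import Pool.Agent.Lib.MP_ae38e0_lc.Any.Shut
import Pool.Agent.Lib.MP_ae38e0_lc.Any.Pairs
import Pool.Agent.Lib.MP_ae38e0_lc.Any.Step

set_option autoImplicit false

/-!
# The step of a party in a shut state
-/

namespace Pool.Agent.LinOT

open Classical

variable {K : Type} [Field K] {Q M X Y RA RB StA StB σ : Type}

variable (L : Submodule K (Q → K)) [Fintype L] [Fintype RA] [Fintype RB]

omit [Fintype L] in
/-- Touching is symmetric, as an equivalence. -/
theorem ss_tch_comm (W S T : List Q) : Tch L W S T ↔ Tch L W T S :=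
  ⟨tch_symm L, tch_symm L⟩

/-- Swapping the two parties in a sum over the real executions. -/
theorem ss_sum_swap (SA : Side Q K StA RA) (SB : Side Q K StB RB) (kn : List (Q × K))
    (F : RB × RA × L → ℝ) :
    ∑ w ∈ cs L orc (real L SB SA) kn, F w =
      ∑ w ∈ cs L orc (real L SA SB) kn, F (w.2.1, w.1, w.2.2) := by
  refine Finset.sum_bij' (fun w _ => (w.2.1, w.1, w.2.2)) (fun w _ => (w.2.1, w.1, w.2.2))
    ?_ ?_ (fun _ _ => rfl) (fun _ _ => rfl) (fun _ _ => rfl)
  · intro w hw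
    rw [mem_cs] at hw ⊢
    exact ⟨⟨hw.1.2, hw.1.1⟩, hw.2⟩
  · intro w hw
    rw [mem_cs] at hw ⊢
    exact ⟨⟨hw.1.2, hw.1.1⟩, hw.2⟩

theorem ss_nr_swap (SA : Side Q K StA RA) (SB : Side Q K StB RB) (kn : List (Q × K)) :
    nr L SB SA kn = nr L SA SB kn := by
  have h := ss_sum_swap L SA SB kn (fun _ => 1)
  simpa [nr] using h

theorem ss_rho_eq (SA : Side Q K StA RA) (SB : Side Q K StB RB) (kn : List (Q × K)) :
    rho L SA SB kn = ∑ w ∈ cs L orc (real L SA SB) kn,
      if ¬ Tch L (kn.map Prod.fst) (SA.q w.1 w.2.2) (SB.q w.2.1 w.2.2) then (1 : ℝ) else 0 := by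
  rw [Finset.sum_boole]
  rfl

theorem ss_rho_swap (SA : Side Q K StA RA) (SB : Side Q K StB RB) (kn : List (Q × K)) :
    rho L SB SA kn = rho L SA SB kn := by
  rw [ss_rho_eq, ss_rho_eq, ss_sum_swap]
  refine Finset.sum_congr rfl fun w _ => ?_
  simp only [ss_tch_comm L (kn.map Prod.fst) (SB.q w.2.1 w.2.2) (SA.q w.1 w.2.2)]

theorem ss_qpot_swap (n : ℕ) (SA : Side Q K StA RA) (SB : Side Q K StB RB)
    (kn : List (Q × K)) :
    qpot L n SB SA kn = qpot L n SA SB kn := by
  unfold qpot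
  rw [ss_sum_swap]
  refine Finset.sum_congr rfl fun w _ => ?_
  ring

theorem ss_gp_card_swap (SA : Side Q K StA RA) (SB : Side Q K StB RB) (kn : List (Q × K)) :
    (gp L SB SA kn).card = (gp L SA SB kn).card := by
  refine Finset.card_bij' (fun z _ => (z.2, z.1)) (fun z _ => (z.2, z.1)) ?_ ?_
    (fun _ _ => rfl) (fun _ _ => rfl)
  · intro z hz
    have h1 := Finset.mem_filter.mp hz
    have h2 := Finset.mem_product.mp h1.1
    refine Finset.mem_filter.mpr ⟨Finset.mem_product.mpr ⟨h2.2, h2.1⟩, ?_⟩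
    intro h
    exact h1.2 (tch_symm L h)
  · intro z hz
    have h1 := Finset.mem_filter.mp hz
    have h2 := Finset.mem_product.mp h1.1
    refine Finset.mem_filter.mpr ⟨Finset.mem_product.mpr ⟨h2.2, h2.1⟩, ?_⟩
    intro h
    exact h1.2 (tch_symm L h)

theorem ss_gain_swap (SA : Side Q K StA RA) (SB : Side Q K StB RB) (kn : List (Q × K))
    (S : List Q) : gain L SB SA kn S = gain L SA SB kn S := by
  unfold gain
  refine Finset.sum_bij' (fun z _ => (z.2, z.1)) (fun z _ => (z.2, z.1)) ?_ ?_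
    (fun _ _ => rfl) (fun _ _ => rfl) (fun _ _ => Nat.add_comm _ _)
  · intro z hz
    have h1 := Finset.mem_filter.mp hz
    have h2 := Finset.mem_product.mp h1.1
    refine Finset.mem_filter.mpr ⟨Finset.mem_product.mpr ⟨h2.2, h2.1⟩, ?_⟩
    intro h
    exact h1.2 (tch_symm L h)
  · intro z hz
    have h1 := Finset.mem_filter.mp hz
    have h2 := Finset.mem_product.mp h1.1
    refine Finset.mem_filter.mpr ⟨Finset.mem_product.mpr ⟨h2.2, h2.1⟩, ?_⟩
    intro h
    exact h1.2 (tch_symm L h)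

theorem ss_shut_swap (h1 : ℕ) (SA : Side Q K StA RA) (SB : Side Q K StB RB)
    (kn : List (Q × K)) (hs : Shut L h1 SA SB kn) : Shut L h1 SB SA kn := by
  intro S
  rw [ss_gain_swap, ss_gp_card_swap]
  exact hs S

/-- The number of good pairs after the step of the first party. -/
theorem ss_gp_split (A : Party Q K M X) (SA : Side Q K A.St RA) (SB : Side Q K StB RB)
    (kn : List (Q × K)) (m : M) :
    ∑ a ∈ reps L A.step SA.s m, ((gp L (SA.next A m a) SB kn).card : ℝ) +
      (((gp L SA SB kn).filter fun z => Tch L (kn.map Prod.fst)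
        (SA.q z.1.1 z.1.2 ++ (A.step (SA.s z.1.1 z.1.2) m).asked (z.1.2 : Q → K))
        (SB.q z.2.1 z.2.2)).card : ℝ) = ((gp L SA SB kn).card : ℝ) := by
  set W := kn.map Prod.fst with hW
  -- the sum over the replies
  have key : ∑ a ∈ reps L A.step SA.s m, ((gp L (SA.next A m a) SB kn).card : ℝ) =
      (((gp L SA SB kn).filter fun z => ¬ Tch L W
        (SA.q z.1.1 z.1.2 ++ (A.step (SA.s z.1.1 z.1.2) m).asked (z.1.2 : Q → K))
        (SB.q z.2.1 z.2.2)).card : ℝ) := by
    rw [Finset.card_eq_sum_card_fiberwise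
      (f := fun z : (RA × L) × (RB × L) =>
        ((A.step (SA.s z.1.1 z.1.2) m).run (z.1.2 : Q → K)).2)
      (t := reps L A.step SA.s m)
      (fun z _ => Finset.mem_image.mpr ⟨z.1, Finset.mem_univ _, rfl⟩)]
    push_cast
    refine Finset.sum_congr rfl fun a _ => ?_
    congr 2
    ext z
    simp only [gp, Finset.mem_filter, Finset.mem_product, mem_supp, Side.next]
    constructor
    · rintro ⟨⟨⟨⟨h1, h2⟩, h3⟩, h4⟩, h5⟩
      exact ⟨⟨⟨⟨⟨h1, h3⟩, h4⟩, fun h => h5 (tch_append L h)⟩, h5⟩, h2⟩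
    · rintro ⟨⟨⟨⟨⟨h1, h3⟩, h4⟩, _⟩, h5⟩, h2⟩
      exact ⟨⟨⟨⟨h1, h2⟩, h3⟩, h4⟩, h5⟩
  rw [key]
  have h := Finset.card_filter_add_card_filter_not (s := gp L SA SB kn)
    (fun z => Tch L W
        (SA.q z.1.1 z.1.2 ++ (A.step (SA.s z.1.1 z.1.2) m).asked (z.1.2 : Q → K))
        (SB.q z.2.1 z.2.2))
  rw [add_comm]
  exact_mod_cast h

/-- The computation asks a query. -/
def ss_Ask {α : Type} (c : Comp Q K α) : Prop := ∃ q next, c = Comp.ask q next

omit [Field K] in
theorem ss_ask_or {α : Type} (c : Comp Q K α) (O : Q → K) :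
    (ss_Ask c ∧ 1 ≤ (c.asked O).length) ∨ (¬ ss_Ask c ∧ c.asked O = []) := by
  cases c with
  | ret a =>
    right
    refine ⟨?_, rfl⟩
    rintro ⟨q, next, h⟩
    cases h
  | ask q next =>
    left
    exact ⟨⟨q, next, rfl⟩, by simp⟩

/-- The touched pairs are few. -/
theorem ss_touched (n h1 : ℕ) (A : Party Q K M X) (SA : Side Q K A.St RA)
    (SB : Side Q K StB RB) (kn : List (Q × K)) (m : M)
    (hs : Shut L h1 SA SB kn) (h4 : 4 * n ≤ h1)
    (hnA : ∀ (r : RA) (O : L), (SA.q r O ++ (A.step (SA.s r O) m).asked (O : Q → K)).length ≤ n)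
    (hnB : ∀ (r : RB) (O : L), (SB.q r O).length ≤ n) :
    (h1 : ℝ) * (((gp L SA SB kn).filter fun z => Tch L (kn.map Prod.fst)
        (SA.q z.1.1 z.1.2 ++ (A.step (SA.s z.1.1 z.1.2) m).asked (z.1.2 : Q → K))
        (SB.q z.2.1 z.2.2)).card : ℝ) ≤
      4 * n * (((gp L SA SB kn).filter fun z => ss_Ask (A.step (SA.s z.1.1 z.1.2) m)).card : ℝ) := by
  set W := kn.map Prod.fst with hW
  rcases Nat.eq_zero_or_pos (gp L SA SB kn).card with h0 | h0
  · have he : gp L SA SB kn = ∅ := Finset.card_eq_zero.mp h0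
    simp [he]
  have hnA' : ∀ (r : RA) (O : L), (SA.q r O).length ≤ n := by
    intro r O
    have := hnA r O
    rw [List.length_append] at this
    omega
  have c1 : (((gp L SA SB kn).filter fun z => Tch L W
        (SA.q z.1.1 z.1.2 ++ (A.step (SA.s z.1.1 z.1.2) m).asked (z.1.2 : Q → K))
        (SB.q z.2.1 z.2.2)).card : ℝ) = ∑ p ∈ supp L SA kn,
        (((supp L SB kn).filter fun p' => ¬ Tch L W (SA.q p.1 p.2) (SB.q p'.1 p'.2) ∧
          Tch L W (SA.q p.1 p.2 ++ (A.step (SA.s p.1 p.2) m).asked (p.2 : Q → K))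
            (SB.q p'.1 p'.2)).card : ℝ) := by
    rw [gp, Finset.filter_filter, Finset.card_filter, Finset.sum_product]
    push_cast
    refine Finset.sum_congr rfl fun p _ => ?_
    rw [Finset.card_filter]
    push_cast
    rfl
  have c2 : (((gp L SA SB kn).filter fun z => ss_Ask (A.step (SA.s z.1.1 z.1.2) m)).card : ℝ) =
      ∑ p ∈ supp L SA kn, (if ss_Ask (A.step (SA.s p.1 p.2) m) then
        (((supp L SB kn).filter fun p' => ¬ Tch L W (SA.q p.1 p.2) (SB.q p'.1 p'.2)).card : ℝ)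
          else 0) := by
    rw [gp, Finset.filter_filter, Finset.card_filter, Finset.sum_product]
    push_cast
    refine Finset.sum_congr rfl fun p _ => ?_
    split_ifs with h
    · rw [Finset.card_filter]
      push_cast
      refine Finset.sum_congr rfl fun p' _ => ?_
      simp [h, hW]
    · refine Finset.sum_eq_zero fun p' _ => ?_
      simp [h]
  rw [c1, c2, Finset.mul_sum, Finset.mul_sum]
  refine Finset.sum_le_sum fun p hp => ?_
  rcases ss_ask_or (A.step (SA.s p.1 p.2) m) (p.2 : Q → K) with ⟨h, _⟩ | ⟨h, h2⟩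
  · rw [if_pos h]
    refine le_trans ?_ (shut_few L n h1 SA SB kn hs h4 hnA' hnB h0 _ (hnA p.1 p.2) p hp)
    apply mul_le_mul_of_nonneg_left _ (Nat.cast_nonneg _)
    have : ((supp L SB kn).filter fun p' => ¬ Tch L W (SA.q p.1 p.2) (SB.q p'.1 p'.2) ∧
          Tch L W (SA.q p.1 p.2 ++ (A.step (SA.s p.1 p.2) m).asked (p.2 : Q → K))
            (SB.q p'.1 p'.2)).card ≤ (tset L SB kn (SA.q p.1 p.2 ++
              (A.step (SA.s p.1 p.2) m).asked (p.2 : Q → K))).card := by
      apply Finset.card_le_card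
      intro x hx
      rw [Finset.mem_filter] at hx
      exact Finset.mem_filter.mpr ⟨hx.1, hx.2.2⟩
    exact_mod_cast this
  · rw [if_neg h, h2, List.append_nil]
    have : ((supp L SB kn).filter fun p' => ¬ Tch L W (SA.q p.1 p.2) (SB.q p'.1 p'.2) ∧
          Tch L W (SA.q p.1 p.2) (SB.q p'.1 p'.2)) = ∅ := by
      apply Finset.filter_false_of_mem
      rintro x _ ⟨h3, h4⟩
      exact h3 h4
    rw [this]
    simp

/-- The number of free queries drops with each query. -/
theorem ss_qpot (n : ℕ) (A : Party Q K M X) (SA : Side Q K A.St RA)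
    (SB : Side Q K StB RB) (kn : List (Q × K)) (m : M) :
    ∑ a ∈ reps L A.step SA.s m, qpot L n (SA.next A m a) SB kn +
      (((gr L SA SB kn).filter fun w => ss_Ask (A.step (SA.s w.1 w.2.2) m)).card : ℝ) ≤
      qpot L n SA SB kn := by
  have h1 : ∑ a ∈ reps L A.step SA.s m, qpot L n (SA.next A m a) SB kn =
      ∑ w ∈ cs L orc (real L SA SB) kn, (2 * (n : ℝ) - ((SA.q w.1 w.2.2).length : ℝ) -
        ((SB.q w.2.1 w.2.2).length : ℝ) -
        (((A.step (SA.s w.1 w.2.2) m).asked (w.2.2 : Q → K)).length : ℝ)) := by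
    rw [← sum_stepA L A SA SB kn m]
    refine Finset.sum_congr rfl fun a _ => ?_
    unfold qpot
    refine Finset.sum_congr rfl fun w _ => ?_
    simp only [Side.next, List.length_append]
    push_cast
    ring
  have h2 : (((gr L SA SB kn).filter fun w => ss_Ask (A.step (SA.s w.1 w.2.2) m)).card : ℝ) ≤
      ∑ w ∈ cs L orc (real L SA SB) kn,
        (((A.step (SA.s w.1 w.2.2) m).asked (w.2.2 : Q → K)).length : ℝ) := by
    have h3 : (((gr L SA SB kn).filter fun w => ss_Ask (A.step (SA.s w.1 w.2.2) m)).card : ℝ) ≤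
        (((cs L orc (real L SA SB) kn).filter fun w =>
          ss_Ask (A.step (SA.s w.1 w.2.2) m)).card : ℝ) := by
      have : ((gr L SA SB kn).filter fun w => ss_Ask (A.step (SA.s w.1 w.2.2) m)).card ≤
          ((cs L orc (real L SA SB) kn).filter fun w =>
            ss_Ask (A.step (SA.s w.1 w.2.2) m)).card :=
        Finset.card_le_card (Finset.filter_subset_filter _ (Finset.filter_subset _ _))
      exact_mod_cast this
    refine h3.trans ?_
    rw [Finset.card_filter]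
    push_cast
    refine Finset.sum_le_sum fun w _ => ?_
    rcases ss_ask_or (A.step (SA.s w.1 w.2.2) m) (w.2.2 : Q → K) with ⟨h, h5⟩ | ⟨h, h5⟩
    · rw [if_pos h]
      exact_mod_cast h5
    · rw [if_neg h]
      positivity
  rw [h1, qpot]
  have h3 : ∑ w ∈ cs L orc (real L SA SB) kn, (2 * (n : ℝ) - ((SA.q w.1 w.2.2).length : ℝ) -
        ((SB.q w.2.1 w.2.2).length : ℝ) -
        (((A.step (SA.s w.1 w.2.2) m).asked (w.2.2 : Q → K)).length : ℝ)) =
      ∑ w ∈ cs L orc (real L SA SB) kn, (2 * (n : ℝ) - ((SA.q w.1 w.2.2).length : ℝ) -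
        ((SB.q w.2.1 w.2.2).length : ℝ)) - ∑ w ∈ cs L orc (real L SA SB) kn,
        (((A.step (SA.s w.1 w.2.2) m).asked (w.2.2 : Q → K)).length : ℝ) := by
    rw [← Finset.sum_sub_distrib]
  rw [h3]
  linarith

/-- The step of the first party in a shut state. -/
theorem shut_stepA (n h1 : ℕ) (A : Party Q K M X) (SA : Side Q K A.St RA) (SB : Side Q K StB RB)
    (hA : SA.Loc) (hB : SB.Loc) (kn : List (Q × K)) (m : M)
    (hs : Shut L h1 SA SB kn) (h4 : 4 * n ≤ h1) (hn0 : 0 < n)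
    (hnA : ∀ (r : RA) (O : L), (SA.q r O ++ (A.step (SA.s r O) m).asked (O : Q → K)).length ≤ n)
    (hnB : ∀ (r : RB) (O : L), (SB.q r O).length ≤ n) :
    2 * (nr L SA SB kn - ∑ a ∈ reps L A.step SA.s m, rho L (SA.next A m a) SB kn) +
      8 * ((n : ℝ) / h1) * ∑ a ∈ reps L A.step SA.s m, qpot L n (SA.next A m a) SB kn ≤
    2 * (nr L SA SB kn - rho L SA SB kn) + 8 * ((n : ℝ) / h1) * qpot L n SA SB kn := by
  have hk : (0 : ℝ) < kc L (kn.map Prod.fst) := by exact_mod_cast kc_pos L _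
  have hh : (0 : ℝ) < h1 := by
    have : 0 < h1 := by omega
    exact_mod_cast this
  have e1 := ss_gp_split L A SA SB kn m
  have e2 := ss_touched L n h1 A SA SB kn m hs h4 hnA hnB
  have e3 := ss_qpot L n A SA SB kn m
  have e4 := pair_eq L SA SB hA hB kn (fun _ _ _ _ s _ => ss_Ask (A.step s m))
  have e5 := gp_card L SA SB hA hB kn
  have e6 : ∑ a ∈ reps L A.step SA.s m, ((gp L (SA.next A m a) SB kn).card : ℝ) =
      (kc L (kn.map Prod.fst) : ℝ) *
        ∑ a ∈ reps L A.step SA.s m, rho L (SA.next A m a) SB kn := by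
    rw [Finset.mul_sum]
    exact Finset.sum_congr rfl fun a _ =>
      gp_card L (SA.next A m a) SB (next_loc A SA hA m a) hB kn
  rw [e6, e5] at e1
  have e4' : (((gp L SA SB kn).filter fun z => ss_Ask (A.step (SA.s z.1.1 z.1.2) m)).card : ℝ) =
      (kc L (kn.map Prod.fst) : ℝ) *
        (((gr L SA SB kn).filter fun w => ss_Ask (A.step (SA.s w.1 w.2.2) m)).card : ℝ) := by
    exact_mod_cast e4
  rw [e4'] at e2
  set t : ℝ := (((gp L SA SB kn).filter fun z => Tch L (kn.map Prod.fst)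
        (SA.q z.1.1 z.1.2 ++ (A.step (SA.s z.1.1 z.1.2) m).asked (z.1.2 : Q → K))
        (SB.q z.2.1 z.2.2)).card : ℝ) with ht
  set g : ℝ := (((gr L SA SB kn).filter fun w =>
    ss_Ask (A.step (SA.s w.1 w.2.2) m)).card : ℝ) with hg
  set R : ℝ := ∑ a ∈ reps L A.step SA.s m, rho L (SA.next A m a) SB kn with hR
  set P : ℝ := ∑ a ∈ reps L A.step SA.s m, qpot L n (SA.next A m a) SB kn with hP
  set k : ℝ := (kc L (kn.map Prod.fst) : ℝ) with hkd
  have f1 : k * (h1 * (rho L SA SB kn - R)) ≤ k * (4 * n * g) := by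
    have : t = k * (rho L SA SB kn - R) := by linarith
    rw [this] at e2
    nlinarith
  have f2 : h1 * (rho L SA SB kn - R) ≤ 4 * n * g := le_of_mul_le_mul_left f1 hk
  have f3 : rho L SA SB kn - R ≤ 4 * ((n : ℝ) / h1) * g := by
    have : 4 * ((n : ℝ) / h1) * g = (4 * n * g) / h1 := by ring
    rw [this, le_div_iff₀ hh]
    linarith
  have hn' : (0 : ℝ) ≤ (n : ℝ) / h1 := by positivity
  have f4 : ((n : ℝ) / h1) * g ≤ ((n : ℝ) / h1) * (qpot L n SA SB kn - P) :=
    mul_le_mul_of_nonneg_left (by linarith) hn'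
  linarith

/-- The step of the second party in a shut state. -/
theorem shut_stepB (n h1 : ℕ) (B : Party Q K M Y) (SA : Side Q K StA RA) (SB : Side Q K B.St RB)
    (hA : SA.Loc) (hB : SB.Loc) (kn : List (Q × K)) (m : M)
    (hs : Shut L h1 SA SB kn) (h4 : 4 * n ≤ h1) (hn0 : 0 < n)
    (hnA : ∀ (r : RA) (O : L), (SA.q r O).length ≤ n)
    (hnB : ∀ (r : RB) (O : L), (SB.q r O ++ (B.step (SB.s r O) m).asked (O : Q → K)).length ≤ n) :
    2 * (nr L SA SB kn - ∑ b ∈ reps L B.step SB.s m, rho L SA (SB.next B m b) kn) +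
      8 * ((n : ℝ) / h1) * ∑ b ∈ reps L B.step SB.s m, qpot L n SA (SB.next B m b) kn ≤
    2 * (nr L SA SB kn - rho L SA SB kn) + 8 * ((n : ℝ) / h1) * qpot L n SA SB kn := by
  have h := shut_stepA L n h1 B SB SA hB hA kn m (ss_shut_swap L h1 SA SB kn hs) h4 hn0 hnB hnA
  rw [ss_nr_swap L SA SB kn, ss_rho_swap L SA SB kn, ss_qpot_swap L n SA SB kn,
    Finset.sum_congr rfl (fun b _ => ss_rho_swap L SA (SB.next B m b) kn),
    Finset.sum_congr rfl (fun b _ => ss_qpot_swap L n SA (SB.next B m b) kn)] at h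
  exact h

end Pool.Agent.LinOT
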